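import Mathlib

/-!
# LY-B: truncated inclusion and exclusion on two spaces

For `ω` let `N ω` be the number of the `x ∈ X₀` with `E x ω`. The sum over `ω` of `(N ω).choose j` is the
sum over the subsets `S` of `X₀` with `j` elements of the number of `ω` with `E x ω` for all `x ∈ S`. For
odd `J` and `N ≥ 1` the alternating sum `∑ j ≤ J, (-1) ^ j * N.choose j` is
`(-1) ^ J * (N - 1).choose J ≤ 0` and `∑ j ≤ J + 1, (-1) ^ j * N.choose j = (N - 1).choose (J + 1) ≥ 0`; for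
`N = 0` both are `1`.
-/

set_option autoImplicit false

namespace Pool.Agent.Helper87.LY

open Finset

/-- the number of the `ω` with `E x ω` for all `x ∈ S` -/
noncomputable def cnt {Ω X : Type*} [Fintype Ω] (E : X → Ω → Prop) (S : Finset X) : ℕ :=
  Nat.card {ω : Ω // ∀ x ∈ S, E x ω}

/-- the number of the `ω` without `E x ω` for `x ∈ X₀` -/
noncomputable def none {Ω X : Type*} [Fintype Ω] (E : X → Ω → Prop) (X₀ : Finset X) : ℕ :=
  Nat.card {ω : Ω // ∀ x ∈ X₀, ¬ E x ω}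

section aux

variable {Ω X : Type*} [Fintype Ω] (E : X → Ω → Prop)

open Classical in
private noncomputable def NN54 (X₀ : Finset X) (ω : Ω) : ℕ := (X₀.filter fun x => E x ω).card

open Classical in
private lemma cnt_eq54 (S : Finset X) :
    cnt E S = ∑ ω : Ω, if ∀ x ∈ S, E x ω then 1 else 0 := by
  unfold cnt
  rw [Nat.card_eq_fintype_card, Fintype.card_subtype, card_filter]

open Classical in
private lemma none_eq54 (X₀ : Finset X) :
    none E X₀ = ∑ ω : Ω, if NN54 E X₀ ω = 0 then 1 else 0 := by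
  unfold none
  rw [Nat.card_eq_fintype_card, Fintype.card_subtype, card_filter]
  refine sum_congr rfl fun ω _ => ?_
  congr 1
  unfold NN54
  rw [card_eq_zero, filter_eq_empty_iff]

open Classical in
private lemma sum_choose54 (X₀ : Finset X) (j : ℕ) :
    ∑ S ∈ powersetCard j X₀, cnt E S = ∑ ω : Ω, (NN54 E X₀ ω).choose j := by
  simp_rw [cnt_eq54]
  rw [sum_comm]
  refine sum_congr rfl fun ω _ => ?_
  unfold NN54
  rw [← card_powersetCard, ← card_filter]
  congr 1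
  ext S
  simp only [mem_filter, mem_powersetCard, subset_iff]
  constructor
  · rintro ⟨⟨h1, h2⟩, h3⟩
    exact ⟨fun x hx => ⟨h1 hx, h3 x hx⟩, h2⟩
  · rintro ⟨h1, h2⟩
    exact ⟨⟨fun x hx => (h1 hx).1, h2⟩, fun x hx => (h1 hx).2⟩

end aux

private lemma alt54 (N m : ℕ) : ∑ j ∈ range (m + 1), (-1 : ℤ) ^ j * ((N + 1).choose j : ℤ) =
    (-1) ^ m * (N.choose m : ℤ) := by
  induction m with
  | zero => simp
  | succ m ih =>
    rw [sum_range_succ, ih, Nat.choose_succ_succ, pow_succ]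
    push_cast
    ring

private lemma alt_le54 (N : ℕ) {J : ℕ} (hJ : Odd J) :
    ∑ j ∈ range (J + 1), (-1 : ℤ) ^ j * (N.choose j : ℤ) ≤ if N = 0 then 1 else 0 := by
  rcases N with _ | N
  · rw [sum_eq_single 0]
    · simp
    · intro b _ hb
      rw [Nat.choose_eq_zero_of_lt (Nat.pos_of_ne_zero hb)]
      simp
    · simp
  · rw [alt54, hJ.neg_one_pow, if_neg (Nat.succ_ne_zero N)]
    have : (0 : ℤ) ≤ (N.choose J : ℤ) := by positivity
    linarith

private lemma le_alt54 (N : ℕ) {J : ℕ} (hJ : Even J) :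
    (if N = 0 then 1 else 0 : ℤ) ≤ ∑ j ∈ range (J + 1), (-1 : ℤ) ^ j * (N.choose j : ℤ) := by
  rcases N with _ | N
  · rw [sum_eq_single 0]
    · simp
    · intro b _ hb
      rw [Nat.choose_eq_zero_of_lt (Nat.pos_of_ne_zero hb)]
      simp
    · simp
  · rw [alt54, hJ.neg_one_pow, if_neg (Nat.succ_ne_zero N), one_mul]
    positivity

private lemma none_ge54 {Ω X : Type*} [Fintype Ω] (E : X → Ω → Prop) (X₀ : Finset X) {J : ℕ}
    (hJ : Odd J) :
    ∑ j ∈ range (J + 1), (-1 : ℤ) ^ j * ((∑ S ∈ powersetCard j X₀, cnt E S : ℕ) : ℤ) ≤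
      (none E X₀ : ℤ) := by
  rw [none_eq54]
  simp_rw [sum_choose54]
  push_cast
  simp_rw [mul_sum]
  rw [sum_comm]
  exact sum_le_sum fun ω _ => alt_le54 _ hJ

private lemma none_le54 {Ω X : Type*} [Fintype Ω] (E : X → Ω → Prop) (X₀ : Finset X) {J : ℕ}
    (hJ : Even J) :
    (none E X₀ : ℤ) ≤
      ∑ j ∈ range (J + 1), (-1 : ℤ) ^ j * ((∑ S ∈ powersetCard j X₀, cnt E S : ℕ) : ℤ) := by
  rw [none_eq54]
  simp_rw [sum_choose54]
  push_cast
  simp_rw [mul_sum]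
  rw [sum_comm]
  exact sum_le_sum fun ω _ => le_alt54 _ hJ

theorem bonf {Ω₁ Ω₂ X : Type*} [Fintype Ω₁] [Fintype Ω₂] (E₁ : X → Ω₁ → Prop)
    (E₂ : X → Ω₂ → Prop) (X₀ : Finset X) {J : ℕ} (hJ : Odd J)
    (h : ∀ S ⊆ X₀, S.card ≤ J → cnt E₁ S * Fintype.card Ω₂ = cnt E₂ S * Fintype.card Ω₁) :
    none E₂ X₀ * Fintype.card Ω₁ ≤ none E₁ X₀ * Fintype.card Ω₂ +
      (∑ S ∈ powersetCard (J + 1) X₀, cnt E₂ S) * Fintype.card Ω₁ := by
  have h1 := none_ge54 E₁ X₀ hJ
  have h2 := none_le54 E₂ X₀ (J := J + 1) hJ.add_one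
  rw [sum_range_succ, hJ.add_one.neg_one_pow, one_mul] at h2
  have h3 : (∑ j ∈ range (J + 1), (-1 : ℤ) ^ j * ((∑ S ∈ powersetCard j X₀, cnt E₂ S : ℕ) : ℤ)) *
      (Fintype.card Ω₁ : ℤ) =
      (∑ j ∈ range (J + 1), (-1 : ℤ) ^ j * ((∑ S ∈ powersetCard j X₀, cnt E₁ S : ℕ) : ℤ)) *
      (Fintype.card Ω₂ : ℤ) := by
    rw [sum_mul, sum_mul]
    refine sum_congr rfl fun j hj => ?_
    rw [mul_assoc, mul_assoc]
    congr 1
    push_cast
    rw [sum_mul, sum_mul]
    refine sum_congr rfl fun S hS => ?_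
    rw [mem_powersetCard] at hS
    rw [mem_range] at hj
    have := h S hS.1 (by omega)
    exact_mod_cast this.symm
  have h4 : (0 : ℤ) ≤ (Fintype.card Ω₁ : ℤ) := by positivity
  have h5 : (0 : ℤ) ≤ (Fintype.card Ω₂ : ℤ) := by positivity
  have h6 := mul_le_mul_of_nonneg_right h2 h4
  have h7 := mul_le_mul_of_nonneg_right h1 h5
  rw [add_mul, h3] at h6
  have h8 : (none E₂ X₀ : ℤ) * (Fintype.card Ω₁ : ℤ) ≤ (none E₁ X₀ : ℤ) * (Fintype.card Ω₂ : ℤ) +
      ((∑ S ∈ powersetCard (J + 1) X₀, cnt E₂ S : ℕ) : ℤ) * (Fintype.card Ω₁ : ℤ) := by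
    linarith
  exact_mod_cast h8

private lemma pow_ge54 {s x : ℝ} (hs : 0 ≤ s) (hx : 0 ≤ x) (j : ℕ) :
    s ^ (j + 1) + (j + 1 : ℕ) * (s ^ j * x) ≤ (s + x) ^ (j + 1) := by
  induction j with
  | zero => simp
  | succ j ih =>
    have h1 : (s ^ (j + 1) + (j + 1 : ℕ) * (s ^ j * x)) * (s + x) ≤ (s + x) ^ (j + 1) * (s + x) :=
      mul_le_mul_of_nonneg_right ih (by positivity)
    rw [← pow_succ] at h1
    have h2 : (0 : ℝ) ≤ (j + 1 : ℕ) * (s ^ j * x) * x := by positivity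
    have h3 : (s ^ (j + 1) + (j + 1 : ℕ) * (s ^ j * x)) * (s + x) =
        s ^ (j + 1 + 1) + (j + 1 + 1 : ℕ) * (s ^ (j + 1) * x) + (j + 1 : ℕ) * (s ^ j * x) * x := by
      push_cast
      ring
    rw [h3] at h1
    linarith

/-- the elementary symmetric functions -/
theorem esymm_le {X : Type*} (X₀ : Finset X) (x : X → ℝ) (hx : ∀ i ∈ X₀, 0 ≤ x i) (j : ℕ) :
    ∑ S ∈ powersetCard j X₀, ∏ i ∈ S, x i ≤ (∑ i ∈ X₀, x i) ^ j / j.factorial := by
  classical
  induction X₀ using Finset.induction_on generalizing j with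
  | empty =>
    rcases j with _ | j
    · simp
    · rw [powersetCard_eq_empty.2 (by simp)]
      simp
  | insert a X₀ ha ih =>
    have hx' : ∀ i ∈ X₀, 0 ≤ x i := fun i hi => hx i (mem_insert_of_mem hi)
    have hxa : 0 ≤ x a := hx a (mem_insert_self _ _)
    rcases j with _ | j
    · simp
    · rw [powersetCard_succ_insert ha, sum_union, sum_image, sum_insert ha]
      · have h1 := ih hx' (j + 1)
        have h2 : ∑ S ∈ powersetCard j X₀, ∏ i ∈ insert a S, x i =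
            x a * ∑ S ∈ powersetCard j X₀, ∏ i ∈ S, x i := by
          rw [mul_sum]
          refine sum_congr rfl fun S hS => ?_
          rw [prod_insert]
          intro h
          exact ha ((mem_powersetCard.1 hS).1 h)
        rw [h2]
        have h3 := mul_le_mul_of_nonneg_left (ih hx' j) hxa
        have hs : 0 ≤ ∑ i ∈ X₀, x i := sum_nonneg hx'
        have h4 := pow_ge54 hs hxa j
        have hf : (0 : ℝ) < (j + 1).factorial := by positivity
        have h5 : (∑ i ∈ X₀, x i) ^ (j + 1) / ((j + 1).factorial : ℝ) +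
            x a * ((∑ i ∈ X₀, x i) ^ j / (j.factorial : ℝ)) ≤
            (x a + ∑ i ∈ X₀, x i) ^ (j + 1) / ((j + 1).factorial : ℝ) := by
          rw [le_div_iff₀ hf]
          have h6 : ((∑ i ∈ X₀, x i) ^ (j + 1) / ((j + 1).factorial : ℝ) +
              x a * ((∑ i ∈ X₀, x i) ^ j / (j.factorial : ℝ))) * ((j + 1).factorial : ℝ) =
              (∑ i ∈ X₀, x i) ^ (j + 1) + (j + 1 : ℕ) * ((∑ i ∈ X₀, x i) ^ j * x a) := by
            rw [Nat.factorial_succ]
            push_cast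
            field_simp
          rw [h6, add_comm (x a)]
          exact h4
        linarith
      · intro S hS T hT hST
        have h1 : a ∉ S := fun h => ha ((mem_powersetCard.1 hS).1 h)
        have h2 : a ∉ T := fun h => ha ((mem_powersetCard.1 hT).1 h)
        rw [← erase_insert h1, ← erase_insert h2, hST]
      · rw [disjoint_left]
        intro S hS hS'
        obtain ⟨T, _, rfl⟩ := mem_image.1 hS'
        exact ha ((mem_powersetCard.1 hS).1 (mem_insert_self _ _))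

/-- the third truncation -/
theorem bonf_three {Ω X : Type*} [Fintype Ω] (E : X → Ω → Prop) (X₀ : Finset X) :
    (Fintype.card Ω : ℝ) - ∑ S ∈ powersetCard 1 X₀, (cnt E S : ℝ) +
      ∑ S ∈ powersetCard 2 X₀, (cnt E S : ℝ) - ∑ S ∈ powersetCard 3 X₀, (cnt E S : ℝ) ≤
      none E X₀ := by
  have h := none_ge54 E X₀ (J := 3) (by decide)
  have h0 : ((∑ S ∈ powersetCard 0 X₀, cnt E S : ℕ) : ℤ) = (Fintype.card Ω : ℤ) := by
    rw [sum_choose54]
    simp
  simp only [sum_range_succ, sum_range_zero] at h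
  rw [h0] at h
  have h1 : ((((-1 : ℤ) ^ 0 * (Fintype.card Ω : ℤ) +
      (-1) ^ 1 * ((∑ S ∈ powersetCard 1 X₀, cnt E S : ℕ) : ℤ)) +
      (-1) ^ 2 * ((∑ S ∈ powersetCard 2 X₀, cnt E S : ℕ) : ℤ)) +
      (-1) ^ 3 * ((∑ S ∈ powersetCard 3 X₀, cnt E S : ℕ) : ℤ)) ≤ (none E X₀ : ℤ) := by linarith
  have h2 : ((((((-1 : ℤ) ^ 0 * (Fintype.card Ω : ℤ) +
      (-1) ^ 1 * ((∑ S ∈ powersetCard 1 X₀, cnt E S : ℕ) : ℤ)) +
      (-1) ^ 2 * ((∑ S ∈ powersetCard 2 X₀, cnt E S : ℕ) : ℤ)) +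
      (-1) ^ 3 * ((∑ S ∈ powersetCard 3 X₀, cnt E S : ℕ) : ℤ)) : ℤ) : ℝ) ≤
      ((none E X₀ : ℤ) : ℝ) := by exact_mod_cast h1
  push_cast at h2
  linarith

/-- the second moment with an upper bound for the number of events, except on the set `W` -/
theorem bonf_two {Ω X : Type*} [Fintype Ω] (E : X → Ω → Prop) (X₀ : Finset X) (W : Ω → Prop)
    (hW : ∀ ω, ¬ W ω → Nat.card {x : X // x ∈ X₀ ∧ E x ω} ≤ 8) :
    4 * (Fintype.card Ω : ℝ) - 4 * ∑ S ∈ powersetCard 1 X₀, (cnt E S : ℝ) +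
      ∑ S ∈ powersetCard 2 X₀, (cnt E S : ℝ) ≤
      4 * none E X₀ + (X₀.card : ℝ) ^ 2 * Nat.card {ω : Ω // W ω} := by
  classical
  have e1 : ∑ S ∈ powersetCard 1 X₀, (cnt E S : ℝ) = ∑ ω : Ω, ((NN54 E X₀ ω).choose 1 : ℝ) := by
    rw [← Nat.cast_sum, sum_choose54, Nat.cast_sum]
  have e2 : ∑ S ∈ powersetCard 2 X₀, (cnt E S : ℝ) = ∑ ω : Ω, ((NN54 E X₀ ω).choose 2 : ℝ) := by
    rw [← Nat.cast_sum, sum_choose54, Nat.cast_sum]
  have e3 : (none E X₀ : ℝ) = ∑ ω : Ω, if NN54 E X₀ ω = 0 then (1 : ℝ) else 0 := by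
    rw [none_eq54, Nat.cast_sum]
    refine sum_congr rfl fun ω _ => ?_
    split_ifs <;> simp
  have e4 : (Nat.card {ω : Ω // W ω} : ℝ) = ∑ ω : Ω, if W ω then (1 : ℝ) else 0 := by
    rw [Nat.card_eq_fintype_card, Fintype.card_subtype, card_filter, Nat.cast_sum]
    refine sum_congr rfl fun ω _ => ?_
    split_ifs <;> simp
  have e5 : (Fintype.card Ω : ℝ) = ∑ _ω : Ω, (1 : ℝ) := by simp
  rw [e1, e2, e3, e4, e5, mul_sum, mul_sum, mul_sum, mul_sum, ← sum_sub_distrib, ← sum_add_distrib,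
    ← sum_add_distrib]
  refine sum_le_sum fun ω _ => ?_
  obtain ⟨N, hN⟩ : ∃ N, N = NN54 E X₀ ω := ⟨_, rfl⟩
  rw [← hN]
  have hNX : (N : ℝ) ≤ X₀.card := by
    rw [hN]
    exact_mod_cast card_filter_le _ _
  have hc2 : ((N.choose 2 : ℕ) : ℝ) = N * (N - 1) / 2 := Nat.cast_choose_two ℝ N
  rw [Nat.choose_one_right, hc2]
  have hN0 : (0 : ℝ) ≤ N := by positivity
  by_cases hw : W ω
  · rw [if_pos hw]
    have h1 : (N : ℝ) ^ 2 ≤ (X₀.card : ℝ) ^ 2 := pow_le_pow_left₀ hN0 hNX 2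
    by_cases h0 : N = 0
    · rw [if_pos h0, h0]
      simp
    · rw [if_neg h0]
      have h2 : (1 : ℝ) ≤ N := by exact_mod_cast Nat.one_le_iff_ne_zero.2 h0
      nlinarith
  · rw [if_neg hw]
    have h8 : N ≤ 8 := by
      have := hW ω hw
      have e6 : Nat.card {x : X // x ∈ X₀ ∧ E x ω} = N := by
        rw [hN]
        unfold NN54
        have e7 : {x : X // x ∈ X₀ ∧ E x ω} ≃ ↥(X₀.filter fun x => E x ω) :=
          Equiv.subtypeEquivRight fun x => by rw [mem_filter]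
        rw [Nat.card_congr e7, Nat.card_eq_fintype_card, Fintype.card_coe]
      rw [e6] at this
      exact this
    by_cases h0 : N = 0
    · rw [if_pos h0, h0]
      simp
    · rw [if_neg h0]
      have h2 : (1 : ℝ) ≤ N := by exact_mod_cast Nat.one_le_iff_ne_zero.2 h0
      have h3 : (N : ℝ) ≤ 8 := by exact_mod_cast h8
      nlinarith

end Pool.Agent.Helper87.LY
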