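import Mathlib

/-!
# LY-M: matrices with determinant zero modulo a polynomial

* `nz_mul`: the Chinese remainder theorem: `AdjoinRoot (H * K)` is the product of `AdjoinRoot H` and
  `AdjoinRoot K` (for instance `Ideal.quotientInfEquivQuotientProd` or
  `Ideal.quotientMulEquivQuotientProd`), and a matrix over the product has determinant zero if and
  only if both components have.
* `nz_irr`: `AdjoinRoot P` is a field with `q = p ^ k` elements, there are `q ^ 4` matrices and
  `(q ^ 2 - 1) * (q ^ 2 - q)` invertible ones (`Matrix.card_GL_field`).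
-/

set_option autoImplicit false

namespace Pool.Agent.Helper87.LY

open Polynomial

variable {p : ℕ} [hp : Fact p.Prime]

/-- the number of the matrices modulo `H` with determinant zero -/
noncomputable def nz {p : ℕ} (H : (ZMod p)[X]) : ℕ :=
  Nat.card {A : Matrix (Fin 2) (Fin 2) (AdjoinRoot H) // A.det = 0}

/-- a ring isomorphism carries the matrices with determinant zero to each other -/
private theorem card_congr63 {R S : Type*} [CommRing R] [CommRing S] (e : R ≃+* S) :
    Nat.card {A : Matrix (Fin 2) (Fin 2) R // A.det = 0} =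
      Nat.card {A : Matrix (Fin 2) (Fin 2) S // A.det = 0} := by
  refine Nat.card_congr (Equiv.subtypeEquiv (e.mapMatrix (m := Fin 2)).toEquiv fun A => ?_)
  have h : (e.mapMatrix (m := Fin 2) A).det = e A.det := by
    rw [RingEquiv.map_det]
  change A.det = 0 ↔ (e.mapMatrix (m := Fin 2) A).det = 0
  rw [h, map_eq_zero_iff e e.injective]

/-- the product of two rings -/
private theorem card_prod63 {R S : Type*} [CommRing R] [CommRing S] :
    Nat.card {A : Matrix (Fin 2) (Fin 2) (R × S) // A.det = 0} =
      Nat.card {A : Matrix (Fin 2) (Fin 2) R // A.det = 0} *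
        Nat.card {A : Matrix (Fin 2) (Fin 2) S // A.det = 0} := by
  rw [← Nat.card_prod]
  have h : ∀ A : Matrix (Fin 2) (Fin 2) (R × S),
      A.det = 0 ↔ (A.map Prod.fst).det = 0 ∧ (A.map Prod.snd).det = 0 := by
    intro A
    have h1 : (A.map Prod.fst).det = A.det.1 := ((RingHom.fst R S).map_det A).symm
    have h2 : (A.map Prod.snd).det = A.det.2 := ((RingHom.snd R S).map_det A).symm
    rw [h1, h2, Prod.ext_iff]
    rfl
  refine Nat.card_congr
    { toFun := fun A => (⟨A.1.map Prod.fst, ((h A.1).mp A.2).1⟩, ⟨A.1.map Prod.snd, ((h A.1).mp A.2).2⟩)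
      invFun := fun B => ⟨Matrix.of fun i j => (B.1.1 i j, B.2.1 i j), (h _).mpr ⟨B.1.2, B.2.2⟩⟩
      left_inv := fun A => rfl
      right_inv := fun B => rfl }

theorem nz_one : nz (1 : (ZMod p)[X]) = 1 := by
  have hs : Subsingleton (AdjoinRoot (1 : (ZMod p)[X])) := by
    have : Ideal.span {(1 : (ZMod p)[X])} = ⊤ := Ideal.span_singleton_one
    exact Ideal.Quotient.subsingleton_iff.mpr this
  unfold nz
  rw [Nat.card_eq_one_iff_unique]
  exact ⟨⟨fun A B => Subtype.ext (Matrix.ext fun i j => Subsingleton.elim _ _)⟩,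
    ⟨⟨0, Subsingleton.elim _ _⟩⟩⟩

theorem nz_mul {H K : (ZMod p)[X]} (h : IsCoprime H K) : nz (H * K) = nz H * nz K := by
  have hc : IsCoprime (Ideal.span {H}) (Ideal.span {K}) :=
    (Ideal.isCoprime_span_singleton_iff H K).mpr h
  have he : Ideal.span {H * K} = Ideal.span {H} * Ideal.span {K} :=
    (Ideal.span_singleton_mul_span_singleton H K).symm
  have e : AdjoinRoot (H * K) ≃+* AdjoinRoot H × AdjoinRoot K :=
    (Ideal.quotEquivOfEq he).trans (Ideal.quotientMulEquivQuotientProd _ _ hc)
  unfold nz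
  rw [card_congr63 e, card_prod63]

/-- matrices over a finite field with determinant zero -/
private theorem card_field63 {F : Type*} [Field F] [Finite F] :
    Nat.card {A : Matrix (Fin 2) (Fin 2) F // A.det = 0} + Nat.card F =
      Nat.card F ^ 3 + Nat.card F ^ 2 := by
  classical
  have := Fintype.ofFinite F
  have h1 := Matrix.card_GL_field (𝔽 := F) 2
  have hq : 1 < Nat.card F := Finite.one_lt_card
  have h2 : Nat.card (Matrix (Fin 2) (Fin 2) F) = Nat.card F ^ 4 := by
    have e : Nat.card (Matrix (Fin 2) (Fin 2) F) = Nat.card (Fin 2 → Fin 2 → F) := rfl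
    rw [e, Nat.card_fun, Nat.card_fun, Nat.card_fin, ← pow_mul]
  have h3 : Nat.card (Matrix (Fin 2) (Fin 2) F) =
      Nat.card {A : Matrix (Fin 2) (Fin 2) F // A.det = 0} +
        Nat.card {A : Matrix (Fin 2) (Fin 2) F // ¬ A.det = 0} := by
    rw [← Nat.card_sum]
    exact Nat.card_congr (Equiv.sumCompl _).symm
  have h4 : Nat.card {A : Matrix (Fin 2) (Fin 2) F // ¬ A.det = 0} =
      Nat.card (GL (Fin 2) F) := by
    refine Nat.card_congr
      { toFun := fun A => Matrix.GeneralLinearGroup.mkOfDetNeZero A.1 A.2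
        invFun := fun g => ⟨g.1, g.det.ne_zero⟩
        left_inv := fun A => rfl
        right_inv := fun g => Units.ext rfl }
  rw [h4, h1, h2] at h3
  simp only [Fin.prod_univ_two, Fin.val_zero, Fin.val_one, pow_zero, pow_one] at h3
  rw [← Nat.card_eq_fintype_card] at h3
  generalize Nat.card F = q at *
  obtain ⟨r, rfl⟩ : ∃ r, q = r + 1 := ⟨q - 1, by omega⟩
  have e1 : (r + 1) ^ 2 - 1 = r ^ 2 + 2 * r := by
    have : (r + 1) ^ 2 = r ^ 2 + 2 * r + 1 := by ring
    omega
  have e2 : (r + 1) ^ 2 - (r + 1) = r ^ 2 + r := by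
    have : (r + 1) ^ 2 = r ^ 2 + r + (r + 1) := by ring
    omega
  rw [e1, e2] at h3
  nlinarith

theorem nz_irr {P : (ZMod p)[X]} (hP : P.Monic) (h : Irreducible P) :
    nz P + p ^ P.natDegree = (p ^ P.natDegree) ^ 3 + (p ^ P.natDegree) ^ 2 := by
  have : Fact (Irreducible P) := ⟨h⟩
  have hfin : Module.Finite (ZMod p) (AdjoinRoot P) := hP.finite_adjoinRoot
  have hfin2 : Finite (AdjoinRoot P) := Module.finite_of_finite (ZMod p)
  have hcard : Nat.card (AdjoinRoot P) = p ^ P.natDegree := by
    rw [Module.natCard_eq_pow_finrank (K := ZMod p), Nat.card_zmod]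
    congr 1
    exact finrank_quotient_span_eq_natDegree
  have := card_field63 (F := AdjoinRoot P)
  rw [hcard] at this
  exact this

/-- products of different irreducible polynomials -/
theorem nz_prod (S : Finset (ZMod p)[X]) (hS : ∀ P ∈ S, P.Monic ∧ Irreducible P) :
    nz (∏ P ∈ S, P) = ∏ P ∈ S, nz P := by
  classical
  induction S using Finset.induction_on with
  | empty => rw [Finset.prod_empty, Finset.prod_empty, nz_one]
  | insert Q T hQ ih =>
    rw [Finset.prod_insert hQ, Finset.prod_insert hQ, ← ih fun P hP => hS P (Finset.mem_insert_of_mem hP)]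
    refine nz_mul (IsCoprime.prod_right fun P hP => ?_)
    obtain ⟨hQm, hQi⟩ := hS Q (Finset.mem_insert_self _ _)
    obtain ⟨hPm, hPi⟩ := hS P (Finset.mem_insert_of_mem hP)
    rw [hQi.coprime_iff_not_dvd]
    intro hd
    have := (hQi.dvd_irreducible_iff_associated hPi).mp hd
    have h2 := eq_of_monic_of_associated hQm hPm this
    exact hQ (h2 ▸ hP)

end Pool.Agent.Helper87.LY
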