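import Mathlib
import Pool.Agent.Helper87.LW1.Dens
import Pool.Agent.Helper87.LY.Mod

/-!
# LY-J: the jets of a pair of polynomials of degree at most `d` modulo a polynomial of degree at most
`(d + 1) / 2`

* `jet_card`. As in `LW1/Surj.lean` (`jets_surj`) and `LW1/Dens.lean` (`good_densityD_line`): the
  additive map `c ↦` matrix with the rows `(f_i ', f_i)`, `f_i = deh (form c i)`, modulo `H`, is
  surjective. For let `hh p m = H * K`; the derivative gives `H' * K + H * K' = -1`
  (`LW1.derivative_hh`), so `H' * K = -1` modulo `H`. Given `u, v` (modulo `H`) the polynomial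
  `r = u + H * K * (u' - v)` has `r = u` and `r' = u' + H' * K * (u' - v) = v` modulo `H`, and so has
  `r %ₘ H ^ 2`, which is of degree less than `2 * H.natDegree ≤ d + 1` (if `H = 1` there is nothing to
  prove). The determinant of the matrix is the class of the Wronskian (`LW1.det_mat`). Conclude with
  `LD.fib_card`; `Nat.card (AdjoinRoot H) = p ^ H.natDegree`.
* `inf_card`. The map `c ↦ LW1.mati c` is surjective if `1 ≤ d` (as in `jets_surj`, with
  `hom2 d (C (B i 1) * X ^ d + C (B i 0) * X ^ (d - 1))`), and there are `p ^ 3 + p ^ 2 - p` matrices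
  over `ZMod p` with determinant zero.
-/

set_option autoImplicit false

namespace Pool.Agent.Helper87.LY

open Pool.Agent.Helper87.LD Pool.Agent.Helper87.LW1

variable {p : ℕ} [hp : Fact p.Prime]

/-- the values and the derivatives modulo `H` -/
private noncomputable def matH80 (H : Polynomial (ZMod p)) {d : ℕ} (c : Idx 2 d → ZMod p) :
    Matrix (Fin 2) (Fin 2) (AdjoinRoot H) :=
  Matrix.of fun i => ![AdjoinRoot.mk H (Polynomial.derivative (deh (form c i))),
    AdjoinRoot.mk H (deh (form c i))]

private noncomputable def jetsH80 (H : Polynomial (ZMod p)) (d : ℕ) : (Idx 2 d → ZMod p) →+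
    Matrix (Fin 2) (Fin 2) (AdjoinRoot H) where
  toFun c := matH80 H c
  map_zero' := by
    ext i j
    fin_cases j <;> simp [matH80, form_zero, deh]
  map_add' c e := by
    ext i j
    fin_cases j <;> simp [matH80, form_add, deh]

private noncomputable def matiHom80 (d : ℕ) : (Idx 2 d → ZMod p) →+
    Matrix (Fin 2) (Fin 2) (ZMod p) where
  toFun c := mati c
  map_zero' := by
    ext i j
    fin_cases j <;> simp [mati, form_zero]
  map_add' c e := by
    ext i j
    fin_cases j <;> simp [mati, form_add]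

private theorem jetsH80_surj {m : ℕ} (hm : 1 ≤ m) {H : Polynomial (ZMod p)} (hH : H.Monic)
    (hdvd : H ∣ hh p m) {d : ℕ} (hd : 2 * H.natDegree ≤ d + 1) (h0 : 0 < H.natDegree) :
    Function.Surjective (jetsH80 H d) := by
  intro A
  obtain ⟨K, hK⟩ := hdvd
  have hmk : ∀ i j, ∃ a : Polynomial (ZMod p), AdjoinRoot.mk H a = A i j := fun i j =>
    AdjoinRoot.mk_surjective _
  choose a ha using hmk
  let r : Fin 2 → Polynomial (ZMod p) := fun i =>
    a i 1 + H * K * (Polynomial.derivative (a i 1) - a i 0)
  have hm2 : (H ^ 2).Monic := hH.pow 2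
  let f : Fin 2 → Polynomial (ZMod p) := fun i => r i %ₘ (H ^ 2)
  have hf : ∀ i, (f i).natDegree < d + 1 := by
    intro i
    have h1 : (H ^ 2) ≠ 1 := by
      intro h
      have h2 := congrArg Polynomial.natDegree h
      rw [hH.natDegree_pow, Polynomial.natDegree_one] at h2
      omega
    have h2 := Polynomial.natDegree_modByMonic_lt (r i) hm2 h1
    rw [hH.natDegree_pow] at h2
    exact lt_of_lt_of_le h2 hd
  have hfr : ∀ i, ∃ G : Polynomial (ZMod p), f i = r i + H ^ 2 * G := by
    intro i
    have h1 := Polynomial.modByMonic_add_div (r i) (H ^ 2)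
    refine ⟨-(r i /ₘ (H ^ 2)), ?_⟩
    simp only [f]
    linear_combination h1
  choose G hG using hfr
  have hmk0 : AdjoinRoot.mk H H = 0 := AdjoinRoot.mk_self
  have hder : Polynomial.derivative H * K + H * Polynomial.derivative K = -1 := by
    rw [← derivative_hh (p := p) hm, hK, Polynomial.derivative_mul]
  have hder' : AdjoinRoot.mk H (Polynomial.derivative H) * AdjoinRoot.mk H K = -1 := by
    have h1 := congrArg (AdjoinRoot.mk H) hder
    rwa [map_add, map_mul, map_mul, hmk0, zero_mul, add_zero, map_neg, map_one] at h1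
  have hmkf : ∀ i, AdjoinRoot.mk H (f i) = A i 1 := by
    intro i
    rw [hG i]
    simp only [r]
    rw [map_add, map_add, map_mul, map_mul, map_mul, map_pow, hmk0, zero_mul, zero_mul,
      zero_pow two_ne_zero, zero_mul, add_zero, add_zero, ha]
  have hmkf' : ∀ i, AdjoinRoot.mk H (Polynomial.derivative (f i)) = A i 0 := by
    intro i
    rw [hG i]
    simp only [r]
    rw [Polynomial.derivative_add, Polynomial.derivative_add, Polynomial.derivative_mul,
      Polynomial.derivative_mul, Polynomial.derivative_mul, Polynomial.derivative_pow]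
    simp only [map_add, map_mul, map_pow, map_neg, map_one, map_sub, hmk0]
    rw [ha]
    linear_combination (AdjoinRoot.mk H (Polynomial.derivative (a i 1)) - A i 0) * hder'
  obtain ⟨c, hc⟩ := form_surj (fun i => hom2 d (f i)) fun i => hom2_isHomogeneous d (f i)
  refine ⟨c, ?_⟩
  ext i j
  have h1 : form c i = hom2 d (f i) := congrFun hc i
  change matH80 H c i j = A i j
  fin_cases j
  · simp only [matH80, Matrix.of_apply, h1, deh_hom2 (hf i)]
    exact hmkf' i
  · simp only [matH80, Matrix.of_apply, h1, deh_hom2 (hf i)]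
    exact hmkf i

private theorem matiHom80_surj {d : ℕ} (hd : 1 ≤ d) :
    Function.Surjective (matiHom80 (p := p) d) := by
  intro B
  let f : Fin 2 → Polynomial (ZMod p) := fun i =>
    Polynomial.C (B i 1) * Polynomial.X ^ d + Polynomial.C (B i 0) * Polynomial.X ^ (d - 1)
  have hfd : ∀ i, (f i).coeff d = B i 1 := by
    intro i
    simp only [f]
    rw [Polynomial.coeff_add, Polynomial.coeff_C_mul_X_pow,
      Polynomial.coeff_C_mul_X_pow, if_pos rfl, if_neg (by omega), add_zero]
  have hfd1 : ∀ i, (f i).coeff (d - 1) = B i 0 := by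
    intro i
    simp only [f]
    rw [Polynomial.coeff_add, Polynomial.coeff_C_mul_X_pow,
      Polynomial.coeff_C_mul_X_pow, if_neg (by omega), if_pos rfl, zero_add]
  obtain ⟨c, hc⟩ := form_surj (fun i => hom2 d (f i)) fun i => hom2_isHomogeneous d (f i)
  refine ⟨c, ?_⟩
  ext i j
  have h1 : form c i = hom2 d (f i) := congrFun hc i
  change mati c i j = B i j
  fin_cases j
  · simp only [mati, Matrix.of_apply, h1]
    exact (eval_pderiv_hom2 (by omega) (f i)).trans (hfd1 i)
  · simp only [mati, Matrix.of_apply, h1]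
    exact (eval_hom2 d (f i)).trans (hfd i)

private theorem det_matH80 (H : Polynomial (ZMod p)) {d : ℕ} (c : Idx 2 d → ZMod p) :
    (matH80 H c).det = AdjoinRoot.mk H (wr (deh (form c 0)) (deh (form c 1))) := by
  rw [Matrix.det_fin_two, wr]
  simp only [matH80, Matrix.of_apply, Matrix.cons_val_zero, Matrix.cons_val_one, map_sub, map_mul]
  ring

/-- counting with a surjective additive map -/
private theorem count80 {B : Type*} [AddCommGroup B] [Finite B] {d : ℕ}
    (f : (Idx 2 d → ZMod p) →+ B) (hf : Function.Surjective f) (P : B → Prop) :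
    Nat.card {c : Idx 2 d → ZMod p // P (f c)} * Nat.card B =
      p ^ Fintype.card (Idx 2 d) * Nat.card {b : B // P b} := by
  classical
  have := Fintype.ofFinite B
  have h := fib_card f Finset.univ (Finset.univ.filter P) (fun b _ => hf b)
    (fun _ => Finset.mem_univ _) (Finset.subset_univ _)
  have hcA : Fintype.card (Idx 2 d → ZMod p) = p ^ Fintype.card (Idx 2 d) := by
    rw [Fintype.card_fun, ZMod.card]
  rw [hcA, Finset.card_univ] at h
  rw [Nat.card_eq_fintype_card (α := B), Nat.card_eq_fintype_card (α := {b : B // P b}),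
    Fintype.card_subtype, ← h, Nat.card_eq_fintype_card, Fintype.card_subtype]
  simp only [Finset.mem_filter, Finset.mem_univ, true_and]

private theorem card_mat80 (R : Type*) : Nat.card (Matrix (Fin 2) (Fin 2) R) = Nat.card R ^ 4 := by
  have e : Nat.card (Matrix (Fin 2) (Fin 2) R) = Nat.card (Fin 2 → Fin 2 → R) := rfl
  rw [e, Nat.card_fun, Nat.card_fun, Nat.card_fin, ← pow_mul]

theorem jet_card {m : ℕ} (hm : 1 ≤ m) {H : Polynomial (ZMod p)} (hH : H.Monic) (hdvd : H ∣ hh p m)
    {d : ℕ} (hd : 2 * H.natDegree ≤ d + 1) :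
    Nat.card {c : Idx 2 d → ZMod p // H ∣ wr (deh (form c 0)) (deh (form c 1))} *
      (p ^ H.natDegree) ^ 4 = p ^ Fintype.card (Idx 2 d) * nz H := by
  rcases Nat.eq_zero_or_pos H.natDegree with h0 | h0
  · have h1 : H = 1 := hH.natDegree_eq_zero.mp h0
    subst h1
    rw [nz_one, Polynomial.natDegree_one, pow_zero, one_pow, mul_one, mul_one]
    have e : Nat.card {c : Idx 2 d → ZMod p //
        (1 : Polynomial (ZMod p)) ∣ wr (deh (form c 0)) (deh (form c 1))} =
        Nat.card (Idx 2 d → ZMod p) :=
      Nat.card_congr (Equiv.subtypeUnivEquiv fun c => one_dvd _)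
    rw [e, Nat.card_eq_fintype_card, Fintype.card_fun, ZMod.card]
  · have hfin : Module.Finite (ZMod p) (AdjoinRoot H) := hH.finite_adjoinRoot
    have hfin2 : Finite (AdjoinRoot H) := Module.finite_of_finite (ZMod p)
    have hcard : Nat.card (AdjoinRoot H) = p ^ H.natDegree := by
      rw [Module.natCard_eq_pow_finrank (K := ZMod p), Nat.card_zmod]
      congr 1
      exact finrank_quotient_span_eq_natDegree
    have h := count80 (jetsH80 H d) (jetsH80_surj hm hH hdvd hd h0)
      (fun A : Matrix (Fin 2) (Fin 2) (AdjoinRoot H) => A.det = 0)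
    rw [card_mat80, hcard] at h
    have e : ∀ c : Idx 2 d → ZMod p, (jetsH80 H d c).det = 0 ↔
        H ∣ wr (deh (form c 0)) (deh (form c 1)) := by
      intro c
      change (matH80 H c).det = 0 ↔ _
      rw [det_matH80, AdjoinRoot.mk_eq_zero]
    rw [nz, ← h, Nat.card_congr (Equiv.subtypeEquivRight e)]

/-- matrices over a finite field with determinant zero -/
private theorem card_field80 {F : Type*} [Field F] [Finite F] :
    Nat.card {A : Matrix (Fin 2) (Fin 2) F // A.det = 0} + Nat.card F =
      Nat.card F ^ 3 + Nat.card F ^ 2 := by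
  classical
  have := Fintype.ofFinite F
  have h1 := Matrix.card_GL_field (𝔽 := F) 2
  have hq : 1 < Nat.card F := Finite.one_lt_card
  have h2 : Nat.card (Matrix (Fin 2) (Fin 2) F) = Nat.card F ^ 4 := card_mat80 F
  have h3 : Nat.card (Matrix (Fin 2) (Fin 2) F) =
      Nat.card {A : Matrix (Fin 2) (Fin 2) F // A.det = 0} +
        Nat.card {A : Matrix (Fin 2) (Fin 2) F // ¬ A.det = 0} := by
    rw [← Nat.card_sum]
    exact Nat.card_congr (Equiv.sumCompl _).symm
  have h4 : Nat.card {A : Matrix (Fin 2) (Fin 2) F // ¬ A.det = 0} =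
      Nat.card (GL (Fin 2) F) := by
    refine Nat.card_congr
      { toFun := fun A => Matrix.GeneralLinearGroup.mkOfDetNeZero A.1 A.2
        invFun := fun g => ⟨g.1, g.det.ne_zero⟩
        left_inv := fun A => rfl
        right_inv := fun g => Units.ext rfl }
  rw [h4, h1, h2] at h3
  simp only [Fin.prod_univ_two, Fin.val_zero, Fin.val_one, pow_zero, pow_one] at h3
  rw [← Nat.card_eq_fintype_card] at h3
  generalize Nat.card F = q at *
  obtain ⟨r, rfl⟩ : ∃ r, q = r + 1 := ⟨q - 1, by omega⟩
  have e1 : (r + 1) ^ 2 - 1 = r ^ 2 + 2 * r := by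
    have : (r + 1) ^ 2 = r ^ 2 + 2 * r + 1 := by ring
    omega
  have e2 : (r + 1) ^ 2 - (r + 1) = r ^ 2 + r := by
    have : (r + 1) ^ 2 = r ^ 2 + r + (r + 1) := by ring
    omega
  rw [e1, e2] at h3
  nlinarith

theorem inf_card {d : ℕ} (hd : 1 ≤ d) :
    Nat.card {c : Idx 2 d → ZMod p // (mati c).det = 0} * p ≤ p ^ Fintype.card (Idx 2 d) * 2 := by
  have h := count80 (matiHom80 (p := p) d) (matiHom80_surj hd)
    (fun A : Matrix (Fin 2) (Fin 2) (ZMod p) => A.det = 0)
  have hz := card_field80 (F := ZMod p)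
  rw [card_mat80, Nat.card_zmod] at h
  rw [Nat.card_zmod] at hz
  have e : Nat.card {c : Idx 2 d → ZMod p // (matiHom80 (p := p) d c).det = 0} =
      Nat.card {c : Idx 2 d → ZMod p // (mati c).det = 0} := rfl
  rw [e] at h
  have hp1 : 1 ≤ p := hp.out.pos
  have hp3 : 0 < p ^ 3 := by positivity
  refine Nat.le_of_mul_le_mul_right ?_ hp3
  have h23 : p ^ 2 ≤ p ^ 3 := Nat.pow_le_pow_right hp1 (by norm_num)
  calc _ = Nat.card {c : Idx 2 d → ZMod p // (mati c).det = 0} * p ^ 4 := by ring
    _ = p ^ Fintype.card (Idx 2 d) *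
        Nat.card {b : Matrix (Fin 2) (Fin 2) (ZMod p) // b.det = 0} := h
    _ ≤ p ^ Fintype.card (Idx 2 d) * (2 * p ^ 3) := Nat.mul_le_mul_left _ (by omega)
    _ = _ := by ring

end Pool.Agent.Helper87.LY
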