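import Mathlib
import Pool.Agent.Helper87.LY.Jet
import Pool.Agent.Helper87.LY.Bonf

/-!
# LY: the density for the projective line in fixed degree, points of bounded degree
-/

set_option autoImplicit false

namespace Pool.Agent.Helper87.LY

open Pool.Agent.Helper87.LD Pool.Agent.Helper87.LW1 Polynomial UniqueFactorizationMonoid
open scoped Classical in
/-- the monic irreducible factors of `X ^ (p ^ m) - X` -/
noncomputable def irr (p m : ℕ) [Fact p.Prime] : Finset (ZMod p)[X] :=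
  (normalizedFactors (hh p m)).toFinset

variable {p : ℕ} [hp : Fact p.Prime] {m : ℕ}

theorem mem_irr (hm : 1 ≤ m) {P : (ZMod p)[X]} :
    P ∈ irr p m ↔ Irreducible P ∧ P.Monic ∧ P ∣ hh p m := by
  classical
  rw [irr, Multiset.mem_toFinset]
  convert Polynomial.mem_normalizedFactors_iff (monic_hh (p := p) hm).ne_zero using 2

theorem irr_deg (hm : 1 ≤ m) {P : (ZMod p)[X]} (hP : P ∈ irr p m) :
    1 ≤ P.natDegree ∧ P.natDegree ≤ m := by
  obtain ⟨h1, -, h3⟩ := (mem_irr hm).1 hP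
  refine ⟨h1.natDegree_pos, Nat.le_of_dvd (by omega) ?_⟩
  refine h1.natDegree_dvd_of_dvd_X_pow_card_pow_sub_X (n := m) ?_
  rw [Nat.card_zmod]
  exact h3

theorem irr_coprime (hm : 1 ≤ m) {P Q : (ZMod p)[X]} (hP : P ∈ irr p m) (hQ : Q ∈ irr p m)
    (h : P ≠ Q) : IsCoprime P Q := by
  obtain ⟨h1, h2, -⟩ := (mem_irr hm).1 hP
  obtain ⟨h4, h5, -⟩ := (mem_irr hm).1 hQ
  refine (h1.coprime_iff_not_dvd.2 fun h6 => h ?_)
  exact eq_of_monic_of_associated h2 h5 (h1.associated_of_dvd h4 h6)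

theorem prod_dvd_iff (hm : 1 ≤ m) {S : Finset (ZMod p)[X]} (hS : S ⊆ irr p m) (f : (ZMod p)[X]) :
    (∀ P ∈ S, P ∣ f) ↔ ∏ P ∈ S, P ∣ f := by
  constructor
  · intro h
    refine Finset.prod_dvd_of_coprime ?_ h
    intro P hP Q hQ hPQ
    exact irr_coprime hm (hS hP) (hS hQ) hPQ
  · intro h P hP
    exact (Finset.dvd_prod_of_mem (fun P => P) hP).trans h

theorem prod_monic (hm : 1 ≤ m) {S : Finset (ZMod p)[X]} (hS : S ⊆ irr p m) :
    (∏ P ∈ S, P).Monic :=
  monic_prod_of_monic _ _ fun P hP => ((mem_irr hm).1 (hS hP)).2.1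

theorem prod_dvd_hh (hm : 1 ≤ m) {S : Finset (ZMod p)[X]} (hS : S ⊆ irr p m) :
    ∏ P ∈ S, P ∣ hh p m :=
  (prod_dvd_iff hm hS _).1 fun P hP => ((mem_irr hm).1 (hS hP)).2.2

theorem prod_deg (hm : 1 ≤ m) {S : Finset (ZMod p)[X]} (hS : S ⊆ irr p m) :
    (∏ P ∈ S, P).natDegree = ∑ P ∈ S, P.natDegree :=
  natDegree_prod_of_monic _ _ fun P hP => ((mem_irr hm).1 (hS hP)).2.1

theorem prod_deg_le (hm : 1 ≤ m) {S : Finset (ZMod p)[X]} (hS : S ⊆ irr p m) :
    (∏ P ∈ S, P).natDegree ≤ m * S.card := by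
  rw [prod_deg hm hS]
  refine (Finset.sum_le_card_nsmul _ _ m fun P hP => (irr_deg hm (hS hP)).2).trans ?_
  rw [smul_eq_mul, mul_comm]

/-- the divisibility of the Wronskian -/
def E₁ (d : ℕ) (P : (ZMod p)[X]) (c : Idx 2 d → ZMod p) : Prop :=
  P ∣ wr (deh (form c 0)) (deh (form c 1))

/-- the divisibility of the determinant -/
def E₂ (m : ℕ) (P : (ZMod p)[X]) (A : Matrix (Fin 2) (Fin 2) (RR p m)) : Prop :=
  ∀ f, AdjoinRoot.mk (hh p m) f = A.det → P ∣ f

theorem cnt_E₁ (hm : 1 ≤ m) {S : Finset (ZMod p)[X]} (hS : S ⊆ irr p m) {d : ℕ}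
    (hd : 2 * (m * S.card) ≤ d + 1) :
    cnt (E₁ d) S * (p ^ (∏ P ∈ S, P).natDegree) ^ 4 =
      p ^ Fintype.card (Idx 2 d) * nz (∏ P ∈ S, P) := by
  rw [← jet_card hm (prod_monic hm hS) (prod_dvd_hh hm hS)
    ((Nat.mul_le_mul_left 2 (prod_deg_le hm hS)).trans hd)]
  congr 1
  refine Nat.card_congr (Equiv.subtypeEquivRight fun c => ?_)
  exact prod_dvd_iff hm hS _

theorem card_adjoinRoot {H : (ZMod p)[X]} (hH : H.Monic) :
    Nat.card (AdjoinRoot H) = p ^ H.natDegree := by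
  have h1 : Module.Finite (ZMod p) (AdjoinRoot H) := hH.finite_adjoinRoot
  have h2 : Module.Free (ZMod p) (AdjoinRoot H) := hH.free_adjoinRoot
  have h3 := Module.natCard_eq_pow_finrank (K := ZMod p) (V := AdjoinRoot H)
  rw [h3, Nat.card_zmod]
  congr 1
  exact (AdjoinRoot.powerBasis' hH).finrank.trans (AdjoinRoot.powerBasis'_dim hH)

/-- reduction -/
noncomputable def redu {H K : (ZMod p)[X]} (h : H ∣ K) : AdjoinRoot K →+* AdjoinRoot H :=
  AdjoinRoot.lift (AdjoinRoot.of H) (AdjoinRoot.root H) (by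
    obtain ⟨g, rfl⟩ := h
    rw [Polynomial.eval₂_mul, AdjoinRoot.eval₂_root, zero_mul])

theorem redu_mk {H K : (ZMod p)[X]} (h : H ∣ K) (f : (ZMod p)[X]) :
    redu h (AdjoinRoot.mk K f) = AdjoinRoot.mk H f := by
  rw [redu, AdjoinRoot.lift_mk, ← AdjoinRoot.mk_X, ← AdjoinRoot.algebraMap_eq, ]
  change Polynomial.aeval (AdjoinRoot.mk H X) f = _
  rw [AdjoinRoot.mk_X, AdjoinRoot.aeval_eq]

theorem redu_surj {H K : (ZMod p)[X]} (h : H ∣ K) : Function.Surjective (redu h) := by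
  intro x
  obtain ⟨f, rfl⟩ := AdjoinRoot.mk_surjective x
  exact ⟨AdjoinRoot.mk K f, redu_mk h f⟩

theorem card_mat {R : Type*} [Finite R] :
    Nat.card (Matrix (Fin 2) (Fin 2) R) = Nat.card R ^ 4 := by
  have h2 : Nat.card (Matrix (Fin 2) (Fin 2) R) = Nat.card (Fin 2 → Fin 2 → R) := rfl
  rw [h2, Nat.card_fun, Nat.card_fun, Nat.card_fin, ← pow_mul]

theorem cnt_E₂ (hm : 1 ≤ m) [Fintype (Matrix (Fin 2) (Fin 2) (RR p m))]
    {S : Finset (ZMod p)[X]} (hS : S ⊆ irr p m) :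
    cnt (E₂ m) S * (p ^ (∏ P ∈ S, P).natDegree) ^ 4 =
      Fintype.card (Matrix (Fin 2) (Fin 2) (RR p m)) * nz (∏ P ∈ S, P) := by
  classical
  set H := ∏ P ∈ S, P with hH
  have hHm : H.Monic := prod_monic hm hS
  have hdvd : H ∣ hh p m := prod_dvd_hh hm hS
  have hfin : Module.Finite (ZMod p) (AdjoinRoot H) := hHm.finite_adjoinRoot
  have hfin' : Finite (AdjoinRoot H) := Module.finite_of_finite (ZMod p)
  let _ : Fintype (AdjoinRoot H) := Fintype.ofFinite _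
  let f : Matrix (Fin 2) (Fin 2) (RR p m) →+ Matrix (Fin 2) (Fin 2) (AdjoinRoot H) :=
    (redu hdvd).mapMatrix.toAddMonoidHom
  have hf : ∀ A, f A = A.map (redu hdvd) := fun A => rfl
  have hsurj : Function.Surjective f := by
    intro B
    choose g hg using redu_surj hdvd
    refine ⟨Matrix.of fun i j => g (B i j), ?_⟩
    ext i j
    rw [hf, Matrix.map_apply, Matrix.of_apply, hg]
  set T : Finset (Matrix (Fin 2) (Fin 2) (AdjoinRoot H)) := Finset.univ.filter fun A => A.det = 0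
    with hT
  have h1 := fib_card f Finset.univ T (fun b _ => hsurj b) (fun _ => Finset.mem_univ _)
    (Finset.subset_univ _)
  have h2 : cnt (E₂ m) S = (Finset.univ.filter fun A => f A ∈ T).card := by
    rw [cnt, Nat.card_eq_fintype_card, Fintype.card_subtype]
    congr 1
    ext A
    rw [Finset.mem_filter, Finset.mem_filter, hT, Finset.mem_filter]
    simp only [Finset.mem_univ, true_and]
    obtain ⟨a, ha⟩ := AdjoinRoot.mk_surjective A.det
    have h3 : (f A).det = AdjoinRoot.mk H a := by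
      rw [hf]
      have h4 := RingHom.map_det (redu hdvd) A
      rw [← redu_mk hdvd a, ha, h4]
      rfl
    rw [h3, AdjoinRoot.mk_eq_zero]
    constructor
    · intro h5
      exact (prod_dvd_iff hm hS a).1 fun P hP => h5 P hP a ha
    · intro h5 P hP b hb
      have h6 : hh p m ∣ b - a := by
        rw [← AdjoinRoot.mk_eq_mk, hb, ha]
      have h7 : P ∣ b - a := ((mem_irr hm).1 (hS hP)).2.2.trans h6
      have h8 : P ∣ a := (prod_dvd_iff hm hS a).2 h5 P hP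
      have h9 := dvd_add h7 h8
      rwa [sub_add_cancel] at h9
  have h3 : T.card = nz H := by
    rw [nz, Nat.card_eq_fintype_card, Fintype.card_subtype]
  rw [h2, ← h3, ← h1, Finset.card_univ, ← Nat.card_eq_fintype_card (α := Matrix _ _ (AdjoinRoot H)),
    card_mat, card_adjoinRoot hHm]

theorem nz_le {P : (ZMod p)[X]} (hP : P.Monic) (h : Irreducible P) :
    (nz P : ℝ) ≤ 2 / (p : ℝ) ^ P.natDegree * ((p : ℝ) ^ P.natDegree) ^ 4 := by
  have h1 := nz_irr hP h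
  have h2 : (1 : ℝ) ≤ (p : ℝ) ^ P.natDegree := by
    refine one_le_pow₀ ?_
    exact_mod_cast hp.out.one_lt.le
  have h3 : (nz P : ℝ) + (p : ℝ) ^ P.natDegree =
      ((p : ℝ) ^ P.natDegree) ^ 3 + ((p : ℝ) ^ P.natDegree) ^ 2 := by exact_mod_cast h1
  set q := (p : ℝ) ^ P.natDegree
  have h4 : 2 / q * q ^ 4 = 2 * q ^ 3 := by
    field_simp
  rw [h4]
  nlinarith [mul_nonneg (by linarith : (0 : ℝ) ≤ q - 1) (sq_nonneg q)]

/-- the density of the event -/
theorem cnt_E₂_le (hm : 1 ≤ m) [Fintype (Matrix (Fin 2) (Fin 2) (RR p m))]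
    {S : Finset (ZMod p)[X]} (hS : S ⊆ irr p m) :
    (cnt (E₂ m) S : ℝ) ≤ Fintype.card (Matrix (Fin 2) (Fin 2) (RR p m)) *
      ∏ P ∈ S, (2 / (p : ℝ) ^ P.natDegree) := by
  have h1 := cnt_E₂ hm hS
  rw [nz_prod S fun P hP => ⟨((mem_irr hm).1 (hS hP)).2.1, ((mem_irr hm).1 (hS hP)).1⟩,
    prod_deg hm hS] at h1
  have hp0 : (0 : ℝ) < p := by exact_mod_cast hp.out.pos
  have h2 : (cnt (E₂ m) S : ℝ) * ∏ P ∈ S, ((p : ℝ) ^ P.natDegree) ^ 4 =
      Fintype.card (Matrix (Fin 2) (Fin 2) (RR p m)) * ∏ P ∈ S, (nz P : ℝ) := by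
    rw [Finset.prod_pow, Finset.prod_pow_eq_pow_sum]
    exact_mod_cast h1
  have h3 : ∏ P ∈ S, (nz P : ℝ) ≤ (∏ P ∈ S, (2 / (p : ℝ) ^ P.natDegree)) *
      ∏ P ∈ S, ((p : ℝ) ^ P.natDegree) ^ 4 := by
    rw [← Finset.prod_mul_distrib]
    exact Finset.prod_le_prod (fun _ _ => Nat.cast_nonneg _) fun P hP =>
      nz_le ((mem_irr hm).1 (hS hP)).2.1 ((mem_irr hm).1 (hS hP)).1
  have h4 : 0 < ∏ P ∈ S, ((p : ℝ) ^ P.natDegree) ^ 4 :=
    Finset.prod_pos fun P _ => by positivity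
  refine le_of_mul_le_mul_right ?_ h4
  rw [h2, mul_assoc]
  exact mul_le_mul_of_nonneg_left h3 (Nat.cast_nonneg _)

/-- the number of the monic polynomials of degree `k` -/
theorem card_irr_deg (k : ℕ) : ((irr p m).filter fun P => P.natDegree = k ∧ P.Monic).card ≤ p ^ k := by
  classical
  have h1 : ((irr p m).filter fun P => P.natDegree = k ∧ P.Monic).card ≤
      Fintype.card (Fin k → ZMod p) := by
    rw [← Finset.card_univ]
    refine Finset.card_le_card_of_injOn (fun P i => P.coeff i) (fun _ _ => Finset.mem_univ _) ?_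
    intro P hP Q hQ hPQ
    rw [Finset.mem_coe, Finset.mem_filter] at hP hQ
    ext n
    rcases lt_trichotomy n k with h | rfl | h
    · exact congrFun hPQ ⟨n, h⟩
    · have h1 := hP.2.2.coeff_natDegree
      have h2 := hQ.2.2.coeff_natDegree
      rw [hP.2.1] at h1
      rw [hQ.2.1] at h2
      rw [h1, h2]
    · rw [coeff_eq_zero_of_natDegree_lt (by omega), coeff_eq_zero_of_natDegree_lt (by omega)]
  rwa [Fintype.card_fun, ZMod.card, Fintype.card_fin] at h1

theorem sum_irr (hm : 1 ≤ m) : ∑ P ∈ irr p m, (2 / (p : ℝ) ^ P.natDegree) ≤ 2 * m := by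
  classical
  have hp0 : (0 : ℝ) < p := by exact_mod_cast hp.out.pos
  rw [← Finset.sum_fiberwise_of_maps_to (s := irr p m) (t := Finset.Icc 1 m)
    (g := fun P => P.natDegree) (fun P hP => Finset.mem_Icc.2 (irr_deg hm hP))]
  have h1 : ∀ k ∈ Finset.Icc 1 m, ∑ P ∈ (irr p m).filter (fun P => P.natDegree = k),
      (2 / (p : ℝ) ^ P.natDegree) ≤ 2 := by
    intro k _
    have h2 : ∑ P ∈ (irr p m).filter (fun P => P.natDegree = k), (2 / (p : ℝ) ^ P.natDegree) =
        ((irr p m).filter fun P => P.natDegree = k ∧ P.Monic).card * (2 / (p : ℝ) ^ k) := by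
      have h3 : (irr p m).filter (fun P => P.natDegree = k) =
          (irr p m).filter fun P => P.natDegree = k ∧ P.Monic := by
        refine Finset.filter_congr fun P hP => ?_
        have h4 := ((mem_irr hm).1 hP).2.1
        simp [h4]
      rw [← h3, ← nsmul_eq_mul, ← Finset.sum_const]
      refine Finset.sum_congr rfl fun P hP => ?_
      rw [(Finset.mem_filter.1 hP).2]
    rw [h2]
    have h3 : (((irr p m).filter fun P => P.natDegree = k ∧ P.Monic).card : ℝ) ≤ (p : ℝ) ^ k := by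
      exact_mod_cast card_irr_deg k
    calc _ ≤ (p : ℝ) ^ k * (2 / (p : ℝ) ^ k) := mul_le_mul_of_nonneg_right h3 (by positivity)
      _ = 2 := by field_simp
  refine (Finset.sum_le_sum h1).trans ?_
  rw [Finset.sum_const, Nat.card_Icc, Nat.add_sub_cancel, nsmul_eq_mul, mul_comm]

/-- the Wronskian is prime to `X ^ (p ^ m) - X` -/
theorem none_E₁ (hm : 1 ≤ m) (d : ℕ) : none (E₁ d) (irr p m) =
    Nat.card {c : Idx 2 d → ZMod p //
      IsCoprime (wr (deh (form c 0)) (deh (form c 1))) (hh p m)} := by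
  refine Nat.card_congr (Equiv.subtypeEquivRight fun c => ?_)
  constructor
  · intro h
    refine isCoprime_of_irreducible_dvd (fun h0 => (monic_hh (p := p) hm).ne_zero h0.2) ?_
    intro z hz h1 h2
    classical
    have h3 : normalize z ∈ irr p m := by
      rw [mem_irr hm]
      refine ⟨(normalize_associated z).symm.irreducible hz, monic_normalize hz.ne_zero, ?_⟩
      exact (normalize_dvd_iff).2 h2
    exact h _ h3 (normalize_dvd_iff.2 h1)
  · intro h P hP h1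
    obtain ⟨h2, -, h3⟩ := (mem_irr hm).1 hP
    exact h2.not_isUnit (h.isUnit_of_dvd' h1 h3)

theorem none_E₂ (hm : 1 ≤ m) [Fintype (Matrix (Fin 2) (Fin 2) (RR p m))] :
    Nat.card {A : Matrix (Fin 2) (Fin 2) (RR p m) // IsUnit A.det} ≤ none (E₂ m) (irr p m) := by
  classical
  rw [none, Nat.card_eq_fintype_card, Nat.card_eq_fintype_card]
  refine Fintype.card_subtype_mono _ _ ?_
  intro A hA P hP h1
  obtain ⟨h2, -, h3⟩ := (mem_irr hm).1 hP
  obtain ⟨a, ha⟩ := AdjoinRoot.mk_surjective A.det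
  have h4 : IsCoprime a (hh p m) := isCoprime_of_isUnit (by rw [ha]; exact hA)
  exact h2.not_isUnit (h4.isUnit_of_dvd' (h1 a ha) h3)

/-- **The density in fixed degree.** -/
theorem gen (m : ℕ) (hm : 1 ≤ m) : ∃ d₁ p₀ : ℕ, ∀ (p : ℕ) [Fact p.Prime], p₀ ≤ p → ∀ d, d₁ ≤ d →
    p ^ Fintype.card (Idx 2 d) ≤ 4 * 16 ^ m * Nat.card {c : Idx 2 d → ZMod p //
      IsCoprime (wr (deh (form c 0)) (deh (form c 1))) (hh p m) ∧ (mati c).det ≠ 0} := by
  classical
  have ht := FloorSemiring.tendsto_pow_div_factorial_atTop (2 * (m : ℝ))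
  have ht' : ∀ᶠ n : ℕ in Filter.atTop, (2 * (m : ℝ)) ^ n / n.factorial < 1 / (2 * 16 ^ m) :=
    ht.eventually (gt_mem_nhds (by positivity))
  obtain ⟨n₀, hn₀⟩ := Filter.eventually_atTop.1 ht'
  set J : ℕ := 2 * n₀ + 1 with hJ
  have hJt : (2 * (m : ℝ)) ^ (J + 1) / (J + 1).factorial < 1 / (2 * 16 ^ m) := hn₀ _ (by omega)
  refine ⟨2 * (m * J) + 1, 8 * 16 ^ m, fun p hp hpp d hd => ?_⟩
  have : NeZero m := ⟨by omega⟩
  let _ : Fintype (RR p m) := Fintype.ofFinite _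
  have hR := monic_hh (p := p) hm
  have hcard2 : Fintype.card (Matrix (Fin 2) (Fin 2) (RR p m)) = Nat.card (RR p m) ^ 4 := by
    rw [← Nat.card_eq_fintype_card, card_mat]
  have hcard1 : Fintype.card (Idx 2 d → ZMod p) = p ^ Fintype.card (Idx 2 d) := by
    rw [Fintype.card_fun, ZMod.card]
  have hp0 : (0 : ℝ) < p := by exact_mod_cast hp.out.pos
  have hb := bonf (E₁ (p := p) d) (E₂ m) (irr p m) (J := J) ⟨n₀, hJ⟩ (fun S hS hSJ => by
    have h1 := cnt_E₁ hm hS (d := d) (by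
      have := Nat.mul_le_mul_left m hSJ
      omega)
    have h2 := cnt_E₂ hm hS
    have h3 : 0 < (p ^ (∏ P ∈ S, P).natDegree) ^ 4 := pow_pos (pow_pos hp.out.pos _) _
    refine Nat.eq_of_mul_eq_mul_right h3 ?_
    calc _ = (cnt (E₁ d) S * (p ^ (∏ P ∈ S, P).natDegree) ^ 4) *
          Fintype.card (Matrix (Fin 2) (Fin 2) (RR p m)) := by ring
      _ = p ^ Fintype.card (Idx 2 d) * (Fintype.card (Matrix (Fin 2) (Fin 2) (RR p m)) *
          nz (∏ P ∈ S, P)) := by rw [h1]; ring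
      _ = _ := by rw [← h2, hcard1]; ring)
  set Ω₁ : ℝ := (p : ℝ) ^ Fintype.card (Idx 2 d) with hΩ₁
  set Ω₂ : ℝ := (Fintype.card (Matrix (Fin 2) (Fin 2) (RR p m)) : ℝ) with hΩ₂
  have hΩ₁0 : 0 < Ω₁ := by positivity
  have hΩ₂0 : 0 < Ω₂ := by
    rw [hΩ₂]
    exact_mod_cast Fintype.card_pos
  have hb' : (none (E₂ m) (irr p m) : ℝ) * Ω₁ ≤ none (E₁ (p := p) d) (irr p m) * Ω₂ +
      (∑ S ∈ Finset.powersetCard (J + 1) (irr p m), (cnt (E₂ m) S : ℝ)) * Ω₁ := by
    have h1 := hb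
    rw [hcard1] at h1
    rw [hΩ₁, hΩ₂]
    exact_mod_cast h1
  have htail : ∑ S ∈ Finset.powersetCard (J + 1) (irr p m), (cnt (E₂ m) S : ℝ) ≤
      Ω₂ * (1 / (2 * 16 ^ m)) := by
    have h1 : ∑ S ∈ Finset.powersetCard (J + 1) (irr p m), (cnt (E₂ m) S : ℝ) ≤
        ∑ S ∈ Finset.powersetCard (J + 1) (irr p m),
          Ω₂ * ∏ P ∈ S, (2 / (p : ℝ) ^ P.natDegree) :=
      Finset.sum_le_sum fun S hS => cnt_E₂_le hm (Finset.mem_powersetCard.1 hS).1
    rw [← Finset.mul_sum] at h1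
    refine h1.trans (mul_le_mul_of_nonneg_left ?_ hΩ₂0.le)
    have h2 := esymm_le (irr p m) (fun P => 2 / (p : ℝ) ^ P.natDegree)
      (fun P _ => by positivity) (J + 1)
    refine h2.trans (le_trans ?_ hJt.le)
    refine div_le_div_of_nonneg_right (pow_le_pow_left₀ ?_ (sum_irr hm) _) (by positivity)
    exact Finset.sum_nonneg fun P _ => by positivity
  have h2 : Ω₂ * (1 / 16 ^ m) ≤ none (E₂ m) (irr p m) := by
    have h3 := card_isUnit_det p m hm
    have h4 := none_E₂ (p := p) hm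
    have h5 : Ω₂ ≤ 16 ^ m * (Nat.card {A : Matrix (Fin 2) (Fin 2) (RR p m) // IsUnit A.det} : ℝ) := by
      rw [hΩ₂, hcard2]
      exact_mod_cast h3
    have h6 : (Nat.card {A : Matrix (Fin 2) (Fin 2) (RR p m) // IsUnit A.det} : ℝ) ≤
        none (E₂ m) (irr p m) := by exact_mod_cast h4
    rw [mul_one_div, div_le_iff₀ (by positivity)]
    nlinarith [h5, h6, (by positivity : (0 : ℝ) < 16 ^ m)]
  have h3 : Ω₁ * (1 / (2 * 16 ^ m)) ≤ none (E₁ (p := p) d) (irr p m) := by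
    refine le_of_mul_le_mul_right ?_ hΩ₂0
    have h4 := mul_le_mul_of_nonneg_right h2 hΩ₁0.le
    have h5 := mul_le_mul_of_nonneg_right htail hΩ₁0.le
    have h6 : Ω₁ * (1 / (2 * 16 ^ m)) * Ω₂ = Ω₂ * (1 / 16 ^ m) * Ω₁ -
        Ω₂ * (1 / (2 * 16 ^ m)) * Ω₁ := by
      field_simp
      ring
    rw [h6]
    linarith
  rw [none_E₁ hm] at h3
  have h4 := inf_card (p := p) (d := d) (by omega)
  have h5 : (Nat.card {c : Idx 2 d → ZMod p // (mati c).det = 0} : ℝ) * p ≤ Ω₁ * 2 := by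
    rw [hΩ₁]
    exact_mod_cast h4
  have h6 : (Nat.card {c : Idx 2 d → ZMod p // (mati c).det = 0} : ℝ) ≤
      Ω₁ * (1 / (4 * 16 ^ m)) := by
    have h7 : (8 * 16 ^ m : ℝ) ≤ p := by exact_mod_cast hpp
    rw [mul_one_div, le_div_iff₀ (by positivity)]
    have h8 : (0 : ℝ) ≤ Nat.card {c : Idx 2 d → ZMod p // (mati c).det = 0} := Nat.cast_nonneg _
    nlinarith [mul_le_mul_of_nonneg_left h7 h8]
  have h7 : Nat.card {c : Idx 2 d → ZMod p //
        IsCoprime (wr (deh (form c 0)) (deh (form c 1))) (hh p m)} ≤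
      Nat.card {c : Idx 2 d → ZMod p //
        IsCoprime (wr (deh (form c 0)) (deh (form c 1))) (hh p m) ∧ (mati c).det ≠ 0} +
      Nat.card {c : Idx 2 d → ZMod p // (mati c).det = 0} := by
    simp only [Nat.card_eq_fintype_card, Fintype.card_subtype]
    refine (Finset.card_le_card ?_).trans (Finset.card_union_le _ _)
    intro c hc
    rw [Finset.mem_union, Finset.mem_filter, Finset.mem_filter]
    rw [Finset.mem_filter] at hc
    by_cases h : (mati c).det = 0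
    · exact Or.inr ⟨Finset.mem_univ _, h⟩
    · exact Or.inl ⟨Finset.mem_univ _, hc.2, h⟩
  have h8 : Ω₁ * (1 / (4 * 16 ^ m)) ≤ (Nat.card {c : Idx 2 d → ZMod p //
        IsCoprime (wr (deh (form c 0)) (deh (form c 1))) (hh p m) ∧ (mati c).det ≠ 0} : ℝ) := by
    have h9 : (Nat.card {c : Idx 2 d → ZMod p //
        IsCoprime (wr (deh (form c 0)) (deh (form c 1))) (hh p m)} : ℝ) ≤
      (Nat.card {c : Idx 2 d → ZMod p //
        IsCoprime (wr (deh (form c 0)) (deh (form c 1))) (hh p m) ∧ (mati c).det ≠ 0} : ℝ) +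
      (Nat.card {c : Idx 2 d → ZMod p // (mati c).det = 0} : ℝ) := by exact_mod_cast h7
    have h10 : Ω₁ * (1 / (2 * 16 ^ m)) = Ω₁ * (1 / (4 * 16 ^ m)) + Ω₁ * (1 / (4 * 16 ^ m)) := by
      field_simp
      ring
    linarith
  rw [mul_one_div, div_le_iff₀ (by positivity)] at h8
  have h9 : Ω₁ ≤ 4 * 16 ^ m * (Nat.card {c : Idx 2 d → ZMod p //
        IsCoprime (wr (deh (form c 0)) (deh (form c 1))) (hh p m) ∧ (mati c).det ≠ 0} : ℝ) := by
    linarith
  rw [hΩ₁] at h9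
  exact_mod_cast h9

end Pool.Agent.Helper87.LY
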