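import Mathlib
import Pool.Agent.Helper87.LW1.Dens

/-!
# LY-2: maps of degree two, and pairs of polynomials with Wronskian zero

* `two_count`. Write `a k`, `b k` (`k = 0, 1, 2`) for the coefficients of `x_0 ^ k * x_1 ^ (2 - k)` in
  `form c 0`, `form c 1`, and `u = a 1 * b 0 - a 0 * b 1`, `v = a 2 * b 0 - a 0 * b 2`,
  `w = a 2 * b 1 - a 1 * b 2`. The Wronskian is `u + 2 v X + w X ^ 2`, and `det (mati c) = -w`. If
  `v ^ 2 - u w` is not a square then it has no zero in `ZMod p` and `w ≠ 0`. If `u ≠ 0` the map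
  `(a 2, b 2) ↦ (v, w)` is bijective, for each `v` the map `w ↦ v ^ 2 - u w` is bijective, and there are
  `(p - 1) / 2` nonsquares: so the number of the `c` is at least
  `(p ^ 2 - 1) * (p ^ 2 - p) * (p * (p - 1) / 2)`.
* `wr_zero_count`. If the Wronskian of `A`, `B`, of degree less than `p`, is zero and `B ≠ 0` then
  `A = C t * B`: subtract the multiple of `B` which kills the coefficient of `A` at `n = B.natDegree`; if
  the rest `A₁` is not zero, of degree `k ≠ n`, then the coefficient of the Wronskian at `k + n - 1` is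
  `(k - n)` times the product of the leading coefficients, not zero. So `c` is determined by `form c 1`
  and `t`, or `form c 1 = 0`.
-/

set_option autoImplicit false

namespace Pool.Agent.Helper87.LY

open Pool.Agent.Helper87.LD Pool.Agent.Helper87.LW1

variable {p : ℕ} [hp : Fact p.Prime]

private theorem ex_sum_h4 {d : ℕ} (s : {s : Fin 2 →₀ ℕ // s ∈ ex 2 d}) : s.1 0 + s.1 1 = d := by
  have h := mem_ex.1 s.2
  rwa [Fin.sum_univ_two] at h

private noncomputable def exEquiv_h4 (d : ℕ) : {s : Fin 2 →₀ ℕ // s ∈ ex 2 d} ≃ Fin (d + 1) where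
  toFun s := ⟨s.1 0, by
    have h := ex_sum_h4 s
    omega⟩
  invFun k := ⟨Finsupp.equivFunOnFinite.symm ![(k : ℕ), d - k], by
    rw [mem_ex, Fin.sum_univ_two]
    simp only [Finsupp.equivFunOnFinite_symm_apply_apply, Matrix.cons_val_zero,
      Matrix.cons_val_one]
    have := k.2
    omega⟩
  left_inv s := by
    have h := ex_sum_h4 s
    apply Subtype.ext
    ext i
    fin_cases i
    · simp
    · simp
      omega
  right_inv k := by
    apply Fin.ext
    simp

private theorem card_ex_h4 (d : ℕ) : Fintype.card {s : Fin 2 →₀ ℕ // s ∈ ex 2 d} = d + 1 := by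
  rw [Fintype.card_congr (exEquiv_h4 d), Fintype.card_fin]

theorem card_idx (d : ℕ) : Fintype.card (Idx 2 d) = 2 * (d + 1) := by
  rw [Fintype.card_prod, Fintype.card_fin, card_ex_h4]

private theorem ex_ext_h4 {d : ℕ} {s s' : {s : Fin 2 →₀ ℕ // s ∈ ex 2 d}} (h : s.1 0 = s'.1 0) :
    s = s' := by
  have h1 := ex_sum_h4 s
  have h2 := ex_sum_h4 s'
  apply Subtype.ext
  ext i
  fin_cases i
  · exact h
  · show s.1 1 = s'.1 1
    omega

private theorem deh_form_h4 {R : Type*} [CommRing R] {d : ℕ} (c : Idx 2 d → R) (i : Fin 2) :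
    deh (form c i) = ∑ s : {s : Fin 2 →₀ ℕ // s ∈ ex 2 d},
      Polynomial.C (c (i, s)) * Polynomial.X ^ (s.1 0) := by
  rw [deh, form, map_sum]
  refine Finset.sum_congr rfl fun s _ => ?_
  rw [MvPolynomial.aeval_monomial, Finsupp.prod_fintype _ _ (fun i => pow_zero _),
    Fin.prod_univ_two]
  simp

private theorem coeff_deh_form_h4 {R : Type*} [CommRing R] {d : ℕ} (c : Idx 2 d → R) (i : Fin 2)
    (s : {s : Fin 2 →₀ ℕ // s ∈ ex 2 d}) : (deh (form c i)).coeff (s.1 0) = c (i, s) := by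
  rw [deh_form_h4, Polynomial.finsetSum_coeff, Finset.sum_eq_single s]
  · rw [Polynomial.coeff_C_mul_X_pow, if_pos rfl]
  · intro b _ hb
    rw [Polynomial.coeff_C_mul_X_pow, if_neg]
    intro h
    exact hb (ex_ext_h4 h.symm)
  · intro h
    exact absurd (Finset.mem_univ _) h

private theorem natDegree_deh_form_h4 {R : Type*} [CommRing R] {d : ℕ} (c : Idx 2 d → R)
    (i : Fin 2) : (deh (form c i)).natDegree ≤ d := by
  rw [deh_form_h4]
  refine Polynomial.natDegree_sum_le_of_forall_le _ _ fun s _ => ?_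
  refine (Polynomial.natDegree_C_mul_X_pow_le _ _).trans ?_
  have := ex_sum_h4 s
  omega

/-! ### polynomials with Wronskian zero -/

private theorem coeff_X_mul_derivative_h4 {R : Type*} [CommRing R] (f : Polynomial R) (k : ℕ) :
    (Polynomial.X * Polynomial.derivative f).coeff k = k * f.coeff k := by
  cases k with
  | zero => simp
  | succ k =>
    rw [Polynomial.coeff_X_mul, Polynomial.coeff_derivative]
    push_cast
    ring

private theorem wr_ne_h4 {d : ℕ} (hd : d < p) {A B : Polynomial (ZMod p)} (hA : A.natDegree ≤ d)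
    (hB : B.natDegree ≤ d) (hA0 : A ≠ 0) (hB0 : B ≠ 0) (hne : A.natDegree ≠ B.natDegree) :
    wr A B ≠ 0 := by
  intro h
  have hx : ∀ f : Polynomial (ZMod p),
      (Polynomial.X * Polynomial.derivative f).natDegree ≤ f.natDegree := by
    intro f
    rw [Polynomial.natDegree_le_iff_coeff_eq_zero]
    intro N hN
    rw [coeff_X_mul_derivative_h4, Polynomial.coeff_eq_zero_of_natDegree_lt hN, mul_zero]
  have h1 : (Polynomial.X * Polynomial.derivative A) * B -
      A * (Polynomial.X * Polynomial.derivative B) = 0 := by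
    have h2 : (Polynomial.X * Polynomial.derivative A) * B -
      A * (Polynomial.X * Polynomial.derivative B) = Polynomial.X * wr A B := by
      rw [wr]
      ring
    rw [h2, h, mul_zero]
  have h3 := congrArg (fun f => Polynomial.coeff f (A.natDegree + B.natDegree)) h1
  simp only [Polynomial.coeff_sub, Polynomial.coeff_zero] at h3
  rw [Polynomial.coeff_mul_add_eq_of_natDegree_le (hx A) le_rfl,
    Polynomial.coeff_mul_add_eq_of_natDegree_le le_rfl (hx B), coeff_X_mul_derivative_h4,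
    coeff_X_mul_derivative_h4] at h3
  have hlA : A.coeff A.natDegree ≠ 0 := by
    rw [Polynomial.coeff_natDegree]
    exact Polynomial.leadingCoeff_ne_zero.2 hA0
  have hlB : B.coeff B.natDegree ≠ 0 := by
    rw [Polynomial.coeff_natDegree]
    exact Polynomial.leadingCoeff_ne_zero.2 hB0
  have h4 : ((A.natDegree : ZMod p) - (B.natDegree : ZMod p)) *
      (A.coeff A.natDegree * B.coeff B.natDegree) = 0 := by
    linear_combination h3
  rcases mul_eq_zero.1 h4 with h5 | h5
  · have h6 : ((A.natDegree : ℕ) : ZMod p) = ((B.natDegree : ℕ) : ZMod p) := sub_eq_zero.1 h5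
    rw [ZMod.natCast_eq_natCast_iff'] at h6
    rw [Nat.mod_eq_of_lt (by omega), Nat.mod_eq_of_lt (by omega)] at h6
    exact hne h6
  · exact (mul_ne_zero hlA hlB) h5

private theorem eq_smul_of_wr_h4 {d : ℕ} (hd : d < p) {A B : Polynomial (ZMod p)}
    (hA : A.natDegree ≤ d) (hB : B.natDegree ≤ d) (hB0 : B ≠ 0) (h : wr A B = 0) :
    ∃ t : ZMod p, A = Polynomial.C t * B := by
  have hlB : B.coeff B.natDegree ≠ 0 := by
    rw [Polynomial.coeff_natDegree]
    exact Polynomial.leadingCoeff_ne_zero.2 hB0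
  refine ⟨A.coeff B.natDegree / B.coeff B.natDegree, ?_⟩
  set t := A.coeff B.natDegree / B.coeff B.natDegree with ht
  by_contra hcon
  have hA1 : A - Polynomial.C t * B ≠ 0 := fun h0 => hcon (sub_eq_zero.1 h0)
  have hdeg : (A - Polynomial.C t * B).natDegree ≤ d := by
    refine (Polynomial.natDegree_sub_le _ _).trans (max_le hA ?_)
    exact (Polynomial.natDegree_C_mul_le _ _).trans hB
  have hc : (A - Polynomial.C t * B).coeff B.natDegree = 0 := by
    rw [Polynomial.coeff_sub, Polynomial.coeff_C_mul, ht, div_mul_cancel₀ _ hlB, sub_self]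
  have hne : (A - Polynomial.C t * B).natDegree ≠ B.natDegree := by
    intro h0
    rw [← h0, Polynomial.coeff_natDegree] at hc
    exact hA1 (Polynomial.leadingCoeff_eq_zero.1 hc)
  refine wr_ne_h4 hd hdeg hB hA1 hB0 hne ?_
  have h1 : wr (A - Polynomial.C t * B) B = wr A B := by
    rw [wr, wr, Polynomial.derivative_sub, Polynomial.derivative_C_mul]
    ring
  rw [h1, h]

/-! ### the count of nonsquares -/

private theorem nonsq_h4 (hp5 : 5 ≤ p) :
    p - 1 ≤ 2 * Fintype.card {D : ZMod p // ¬ IsSquare D} := by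
  classical
  have hchar : ringChar (ZMod p) ≠ 2 := by
    rw [ZMod.ringChar_zmod_n]
    omega
  obtain ⟨η, hη⟩ := FiniteField.exists_nonsquare hchar
  have hη0 : η ≠ 0 := by
    rintro rfl
    exact hη (IsSquare.zero)
  have hn : ∀ s : (ZMod p)ˣ, ¬ IsSquare (η * (s : ZMod p) ^ 2) := by
    rintro s ⟨r, hr⟩
    apply hη
    refine ⟨r * (s : ZMod p)⁻¹, ?_⟩
    have hs : (s : ZMod p) ≠ 0 := s.ne_zero
    field_simp
    rw [hr]
    ring
  let F : (ZMod p)ˣ → {D : ZMod p // ¬ IsSquare D} := fun s => ⟨η * (s : ZMod p) ^ 2, hn s⟩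
  have h1 : (Finset.univ : Finset (ZMod p)ˣ).card ≤
      2 * (Finset.univ : Finset {D : ZMod p // ¬ IsSquare D}).card := by
    refine Finset.card_le_mul_card_image_of_maps_to (f := F) (fun _ _ => Finset.mem_univ _) 2 ?_
    intro D _
    by_cases hE : ∃ s : (ZMod p)ˣ, F s = D
    · obtain ⟨s, hs⟩ := hE
      have h2 : (Finset.univ.filter fun x => F x = D) ⊆ ({s, -s} : Finset (ZMod p)ˣ) := by
        intro x hx
        rw [Finset.mem_filter] at hx
        have h3 : F x = F s := hx.2.trans hs.symm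
        have h4 : η * (x : ZMod p) ^ 2 = η * (s : ZMod p) ^ 2 := congrArg Subtype.val h3
        have h5 : (x : ZMod p) ^ 2 = (s : ZMod p) ^ 2 := mul_left_cancel₀ hη0 h4
        rw [Finset.mem_insert, Finset.mem_singleton]
        rcases sq_eq_sq_iff_eq_or_eq_neg.1 h5 with h6 | h6
        · exact Or.inl (Units.ext h6)
        · exact Or.inr (Units.ext (by rw [h6, Units.val_neg]))
      exact (Finset.card_le_card h2).trans Finset.card_le_two
    · have h2 : (Finset.univ.filter fun x => F x = D) = ∅ := by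
        rw [Finset.filter_eq_empty_iff]
        intro x _ hx
        exact hE ⟨x, hx⟩
      rw [h2]
      simp
  rw [Finset.card_univ, Finset.card_univ, ZMod.card_units] at h1
  exact h1

/-! ### the maps of degree two -/

private theorem coprime_hh_h4 {W : Polynomial (ZMod p)} (h : ∀ t, W.eval t ≠ 0) :
    IsCoprime W (hh p 1) := by
  have h1 : hh p 1 = ∏ a : ZMod p, (Polynomial.X - Polynomial.C a) := by
    have h2 : (hh p 1).roots = (Finset.univ : Finset (ZMod p)).val := by
      have h3 := FiniteField.roots_X_pow_card_sub_X (ZMod p)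
      rw [ZMod.card] at h3
      rw [hh, pow_one]
      exact h3
    have h4 : Multiset.card (hh p 1).roots = (hh p 1).natDegree := by
      rw [h2, natDegree_hh le_rfl, pow_one]
      show (Finset.univ : Finset (ZMod p)).card = p
      rw [Finset.card_univ, ZMod.card]
    have h5 := Polynomial.prod_multiset_X_sub_C_of_monic_of_roots_card_eq (monic_hh (p := p) le_rfl) h4
    rw [← h5, h2]
    rfl
  rw [h1]
  refine IsCoprime.prod_right fun a _ => ?_
  refine IsCoprime.symm ?_
  rw [(Polynomial.irreducible_X_sub_C a).coprime_iff_not_dvd, Polynomial.dvd_iff_isRoot]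
  exact h a

private noncomputable def quad_h4 (a b c : ZMod p) : Polynomial (ZMod p) :=
  Polynomial.C a + Polynomial.C b * Polynomial.X + Polynomial.C c * Polynomial.X ^ 2

private theorem quad_deg_h4 (a b c : ZMod p) : (quad_h4 a b c).natDegree < 2 + 1 := by
  rw [quad_h4]
  have h1 : (Polynomial.C c * Polynomial.X ^ 2 + Polynomial.C b * Polynomial.X +
      Polynomial.C a).natDegree ≤ 2 := Polynomial.natDegree_quadratic_le
  have h2 : Polynomial.C a + Polynomial.C b * Polynomial.X + Polynomial.C c * Polynomial.X ^ 2 =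
      Polynomial.C c * Polynomial.X ^ 2 + Polynomial.C b * Polynomial.X + Polynomial.C a := by
    ring
  rw [h2]
  omega

private theorem quad_coeff_h4 (a b c : ZMod p) : (quad_h4 a b c).coeff 0 = a ∧
    (quad_h4 a b c).coeff 1 = b ∧ (quad_h4 a b c).coeff 2 = c := by
  rw [quad_h4]
  refine ⟨?_, ?_, ?_⟩ <;>
  simp [Polynomial.coeff_X, Polynomial.coeff_C, Polynomial.coeff_X_pow]

private theorem quad_wr_h4 (a0 a1 a2 b0 b1 b2 t : ZMod p) :
    (wr (quad_h4 a0 a1 a2) (quad_h4 b0 b1 b2)).eval t =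
      (a1 * b0 - a0 * b1) + 2 * (a2 * b0 - a0 * b2) * t + (a2 * b1 - a1 * b2) * t ^ 2 := by
  rw [wr, quad_h4, quad_h4]
  simp
  ring

private abbrev Par_h4 (p : ℕ) [Fact p.Prime] : Type :=
  ((ZMod p)ˣ × (ZMod p)ˣ) × (ZMod p × ZMod p × ZMod p) × {D : ZMod p // ¬ IsSquare D}

private theorem exists_c_h4 (s : Par_h4 p) : ∃ (c : Idx 2 2 → ZMod p) (b0 a2 b2 : ZMod p),
    deh (form c 0) = quad_h4 s.2.1.1 s.1.1 a2 ∧ deh (form c 1) = quad_h4 b0 s.2.1.2.1 b2 ∧
    s.1.1 * b0 - s.2.1.1 * s.2.1.2.1 = s.1.2 ∧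
    a2 * b0 - s.2.1.1 * b2 = s.2.1.2.2 ∧
    s.2.1.2.2 ^ 2 - s.1.2 * (a2 * s.2.1.2.1 - s.1.1 * b2) = s.2.2.1 ∧
    (mati c).det = - (a2 * s.2.1.2.1 - s.1.1 * b2) := by
  obtain ⟨⟨a1, u⟩, ⟨a0, b1, v⟩, D⟩ := s
  dsimp only
  have ha1 : (a1 : ZMod p) ≠ 0 := a1.ne_zero
  have hu : (u : ZMod p) ≠ 0 := u.ne_zero
  set b0 : ZMod p := ((u : ZMod p) + a0 * b1) / a1 with hb0
  set w : ZMod p := (v ^ 2 - D.1) / u with hw
  set a2 : ZMod p := (a1 * v - a0 * w) / u with ha2
  set b2 : ZMod p := (b1 * v - b0 * w) / u with hb2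
  have e1 : (a1 : ZMod p) * b0 - a0 * b1 = u := by
    rw [hb0]
    field_simp
    ring
  have e2 : a2 * b0 - a0 * b2 = v := by
    have h1 : a2 * b0 - a0 * b2 = ((a1 : ZMod p) * b0 - a0 * b1) * v / u := by
      rw [ha2, hb2]
      field_simp
      ring
    rw [h1, e1]
    field_simp
  have e3 : a2 * b1 - a1 * b2 = w := by
    have h1 : a2 * b1 - a1 * b2 = ((a1 : ZMod p) * b0 - a0 * b1) * w / u := by
      rw [ha2, hb2]
      field_simp
      ring
    rw [h1, e1]
    field_simp
  have e4 : v ^ 2 - u * w = D.1 := by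
    rw [hw]
    field_simp
    ring
  let f : Fin 2 → Polynomial (ZMod p) := ![quad_h4 a0 a1 a2, quad_h4 b0 b1 b2]
  obtain ⟨c, hc⟩ := form_surj (fun i => hom2 2 (f i)) (fun i => hom2_isHomogeneous 2 (f i))
  have hc0 : form c 0 = hom2 2 (quad_h4 a0 a1 a2) := congrFun hc 0
  have hc1 : form c 1 = hom2 2 (quad_h4 b0 b1 b2) := congrFun hc 1
  refine ⟨c, b0, a2, b2, ?_, ?_, e1, e2, ?_, ?_⟩
  · rw [hc0, deh_hom2 (quad_deg_h4 _ _ _)]
  · rw [hc1, deh_hom2 (quad_deg_h4 _ _ _)]
  · rw [e3]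
    exact e4
  · rw [det_mati, hc0, hc1, eval_hom2, eval_hom2, eval_pderiv_hom2 (by norm_num),
      eval_pderiv_hom2 (by norm_num)]
    have q1 := quad_coeff_h4 (p := p) a0 a1 a2
    have q2 := quad_coeff_h4 (p := p) b0 b1 b2
    have h21 : (2 : ℕ) - 1 = 1 := rfl
    rw [h21, q1.2.1, q1.2.2, q2.2.1, q2.2.2]
    ring

theorem two_count (hp5 : 5 ≤ p) : p ^ Fintype.card (Idx 2 2) ≤
    8 * Nat.card {c : Idx 2 2 → ZMod p //
      IsCoprime (wr (deh (form c 0)) (deh (form c 1))) (hh p 1) ∧ (mati c).det ≠ 0} := by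
  classical
  choose c b0 a2 b2 h0 h1 h2 h3 h4 h5 using exists_c_h4 (p := p)
  have hT : ∀ s : Par_h4 p, IsCoprime (wr (deh (form (c s) 0)) (deh (form (c s) 1))) (hh p 1) ∧
      (mati (c s)).det ≠ 0 := by
    intro s
    have hu : (s.1.2 : ZMod p) ≠ 0 := s.1.2.ne_zero
    refine ⟨?_, ?_⟩
    · rw [h0, h1]
      refine coprime_hh_h4 fun t ht => ?_
      rw [quad_wr_h4, h2, h3] at ht
      set w := a2 s * s.2.1.2.1 - s.1.1 * b2 s with hw
      set v := s.2.1.2.2 with hv
      have e1 : ((s.1.2 : ZMod p) + v * t) ^ 2 = s.2.2.1 * t ^ 2 := by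
        rw [← h4 s]
        linear_combination (s.1.2 : ZMod p) * ht
      by_cases ht0 : t = 0
      · rw [ht0] at ht
        apply hu
        linear_combination ht
      · apply s.2.2.2
        refine ⟨((s.1.2 : ZMod p) + v * t) / t, ?_⟩
        field_simp
        linear_combination -e1
    · rw [h5, neg_ne_zero]
      intro hw
      apply s.2.2.2
      rw [← h4 s, hw]
      exact ⟨s.2.1.2.2, by ring⟩
  let F : Par_h4 p → {c : Idx 2 2 → ZMod p //
      IsCoprime (wr (deh (form c 0)) (deh (form c 1))) (hh p 1) ∧ (mati c).det ≠ 0} :=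
    fun s => ⟨c s, hT s⟩
  have hF : Function.Injective F := by
    intro s s' hss
    have hc : c s = c s' := congrArg Subtype.val hss
    have e0 : quad_h4 s.2.1.1 s.1.1 (a2 s) = quad_h4 s'.2.1.1 s'.1.1 (a2 s') := by
      rw [← h0, ← h0, hc]
    have e1 : quad_h4 (b0 s) s.2.1.2.1 (b2 s) = quad_h4 (b0 s') s'.2.1.2.1 (b2 s') := by
      rw [← h1, ← h1, hc]
    have q0 := quad_coeff_h4 (p := p) s.2.1.1 s.1.1 (a2 s)
    have q0' := quad_coeff_h4 (p := p) s'.2.1.1 s'.1.1 (a2 s')
    have q1 := quad_coeff_h4 (p := p) (b0 s) s.2.1.2.1 (b2 s)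
    have q1' := quad_coeff_h4 (p := p) (b0 s') s'.2.1.2.1 (b2 s')
    rw [e0] at q0
    rw [e1] at q1
    have ea0 : s.2.1.1 = s'.2.1.1 := q0.1.symm.trans q0'.1
    have ea1 : (s.1.1 : ZMod p) = s'.1.1 := q0.2.1.symm.trans q0'.2.1
    have ea2 : a2 s = a2 s' := q0.2.2.symm.trans q0'.2.2
    have eb0 : b0 s = b0 s' := q1.1.symm.trans q1'.1
    have eb1 : s.2.1.2.1 = s'.2.1.2.1 := q1.2.1.symm.trans q1'.2.1
    have eb2 : b2 s = b2 s' := q1.2.2.symm.trans q1'.2.2
    have eu : (s.1.2 : ZMod p) = s'.1.2 := by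
      rw [← h2 s, ← h2 s', ea0, ea1, eb0, eb1]
    have ev : s.2.1.2.2 = s'.2.1.2.2 := by
      rw [← h3 s, ← h3 s', ea0, ea2, eb0, eb2]
    have eD : s.2.2.1 = s'.2.2.1 := by
      rw [← h4 s, ← h4 s', ea1, ea2, eb1, eb2, eu, ev]
    refine Prod.ext (Prod.ext (Units.ext ea1) (Units.ext eu))
      (Prod.ext (Prod.ext ea0 (Prod.ext eb1 ev)) (Subtype.ext eD))
  have hcard : Nat.card (Par_h4 p) ≤ Nat.card {c : Idx 2 2 → ZMod p //
      IsCoprime (wr (deh (form c 0)) (deh (form c 1))) (hh p 1) ∧ (mati c).det ≠ 0} :=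
    Nat.card_le_card_of_injective F hF
  have hpar : Nat.card (Par_h4 p) =
      ((p - 1) * (p - 1)) * ((p * (p * p)) * Fintype.card {D : ZMod p // ¬ IsSquare D}) := by
    rw [Nat.card_eq_fintype_card, Fintype.card_prod, Fintype.card_prod, Fintype.card_prod,
      Fintype.card_prod, Fintype.card_prod, ZMod.card, ZMod.card_units]
  have hN := nonsq_h4 (p := p) hp5
  rw [card_idx]
  refine le_trans ?_ (Nat.mul_le_mul_left 8 hcard)
  rw [hpar]
  set N := Fintype.card {D : ZMod p // ¬ IsSquare D} with hNdef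
  obtain ⟨r, hr⟩ : ∃ r, p = r + 1 := ⟨p - 1, by omega⟩
  have hr4 : 4 ≤ r := by omega
  rw [hr] at hN ⊢
  rw [Nat.add_sub_cancel] at hN ⊢
  have e1 : 4 * (r + 1) ≤ 5 * r := by omega
  have e2 : 64 * (r + 1) ^ 3 ≤ 125 * r ^ 3 := by
    have := Nat.pow_le_pow_left e1 3
    rw [mul_pow, mul_pow] at this
    norm_num at this
    exact this
  have e3 : (r + 1) ^ 3 ≤ 4 * r ^ 3 := by
    have : 64 * (r + 1) ^ 3 ≤ 64 * (4 * r ^ 3) := by
      refine e2.trans ?_
      have h9 : 0 ≤ r ^ 3 := Nat.zero_le _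
      nlinarith [h9]
    exact Nat.le_of_mul_le_mul_left this (by norm_num)
  calc (r + 1) ^ (2 * (2 + 1)) = (r + 1) ^ 3 * (r + 1) ^ 3 := by ring
    _ ≤ (r + 1) ^ 3 * (4 * r ^ 3) := Nat.mul_le_mul_left _ e3
    _ = 4 * ((r * r) * ((r + 1) * ((r + 1) * (r + 1)))) * r := by ring
    _ ≤ 4 * ((r * r) * ((r + 1) * ((r + 1) * (r + 1)))) * (2 * N) := Nat.mul_le_mul_left _ hN
    _ = 8 * (r * r * ((r + 1) * ((r + 1) * (r + 1)) * N)) := by ring

theorem wr_zero_count {d : ℕ} (hd : d < p) :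
    Nat.card {c : Idx 2 d → ZMod p // wr (deh (form c 0)) (deh (form c 1)) = 0} ≤
      p ^ (d + 1) * (p + 1) := by
  classical
  let V : Type := {s : Fin 2 →₀ ℕ // s ∈ ex 2 d} → ZMod p
  let g : V × Option (ZMod p) → (Idx 2 d → ZMod p) := fun x => match x with
    | (x, some t) => fun j => if j.1 = 0 then t * x j.2 else x j.2
    | (x, none) => fun j => if j.1 = 0 then x j.2 else 0
  have hg : ∀ c : {c : Idx 2 d → ZMod p // wr (deh (form c 0)) (deh (form c 1)) = 0},
      ∃ y, g y = c.1 := by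
    rintro ⟨c, hc⟩
    by_cases hB : deh (form c 1) = 0
    · refine ⟨(fun s => c (0, s), none), ?_⟩
      funext ⟨i, s⟩
      fin_cases i
      · show (if (0 : Fin 2) = 0 then c (0, s) else 0) = c (0, s)
        rw [if_pos rfl]
      · show (if (1 : Fin 2) = 0 then c (0, s) else 0) = c (1, s)
        rw [if_neg (by decide), ← coeff_deh_form_h4 c 1 s, hB, Polynomial.coeff_zero]
    · obtain ⟨t, ht⟩ := eq_smul_of_wr_h4 hd (natDegree_deh_form_h4 c 0)
        (natDegree_deh_form_h4 c 1) hB hc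
      refine ⟨(fun s => c (1, s), some t), ?_⟩
      funext ⟨i, s⟩
      fin_cases i
      · show (if (0 : Fin 2) = 0 then t * c (1, s) else c (1, s)) = c (0, s)
        rw [if_pos rfl, ← coeff_deh_form_h4 c 1 s, ← coeff_deh_form_h4 c 0 s, ht,
          Polynomial.coeff_C_mul]
      · show (if (1 : Fin 2) = 0 then t * c (1, s) else c (1, s)) = c (1, s)
        rw [if_neg (by decide)]
  choose y hy using hg
  have hinj : Function.Injective y := by
    intro c c' h
    apply Subtype.ext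
    rw [← hy c, ← hy c', h]
  have hfin : Finite (V × Option (ZMod p)) := by
    have : Finite V := inferInstanceAs (Finite ({s : Fin 2 →₀ ℕ // s ∈ ex 2 d} → ZMod p))
    infer_instance
  have h1 := Nat.card_le_card_of_injective y hinj
  refine h1.trans (le_of_eq ?_)
  rw [Nat.card_prod]
  have h2 : Nat.card V = p ^ (d + 1) := by
    show Nat.card ({s : Fin 2 →₀ ℕ // s ∈ ex 2 d} → ZMod p) = p ^ (d + 1)
    rw [Nat.card_eq_fintype_card, Fintype.card_fun, ZMod.card, card_ex_h4]
  rw [h2, Nat.card_eq_fintype_card, Fintype.card_option, ZMod.card]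

end Pool.Agent.Helper87.LY
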