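import Mathlib
import Pool.Agent.Helper87.LY.Gen
import Pool.Agent.Helper87.LY.Two

/-!
# LY: the density for the projective line in each degree, rational points
-/

set_option autoImplicit false

namespace Pool.Agent.Helper87.LY

open Pool.Agent.Helper87.LD Pool.Agent.Helper87.LW1 Polynomial

variable {p : ℕ} [hp : Fact p.Prime]

theorem irr_one_deg {P : (ZMod p)[X]} (hP : P ∈ irr p 1) : P.natDegree = 1 := by
  have h1 := irr_deg le_rfl hP
  omega

/-- the linear polynomials -/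
theorem card_irr_one : (irr p 1).card = p := by
  classical
  have h1 : irr p 1 = Finset.univ.image fun a : ZMod p => X - C a := by
    ext P
    rw [mem_irr le_rfl, Finset.mem_image]
    constructor
    · rintro ⟨h1, h2, h3⟩
      have h4 := irr_one_deg ((mem_irr le_rfl).2 ⟨h1, h2, h3⟩)
      refine ⟨-P.coeff 0, Finset.mem_univ _, ?_⟩
      have h5 := h2.as_sum
      rw [h4] at h5
      conv_rhs => rw [h5]
      simp
    · rintro ⟨a, -, rfl⟩
      refine ⟨irreducible_X_sub_C a, monic_X_sub_C a, ?_⟩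
      rw [dvd_iff_isRoot, IsRoot, hh, eval_sub, eval_pow, eval_X, pow_one, ZMod.pow_card, sub_self]
  rw [h1, Finset.card_image_of_injective _ (fun a b h => by simpa using h), Finset.card_univ,
    ZMod.card]

/-- the density of a condition at a point -/
noncomputable def dn (p : ℕ) : ℝ := ((p : ℝ) ^ 2 + p - 1) / p ^ 3

theorem dn_bd (hp64 : 64 ≤ p) : 1 ≤ p * dn p ∧ p * dn p ≤ 65 / 64 ∧ 0 ≤ dn p := by
  have hp64' : (64 : ℝ) ≤ p := by exact_mod_cast hp64
  have hp0 : (0 : ℝ) < p := by linarith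
  have h1 : (p : ℝ) * dn p = 1 + 1 / p - 1 / p ^ 2 := by
    rw [dn]
    field_simp
  have h2 : 1 / (p : ℝ) ≤ 1 / 64 := one_div_le_one_div_of_le (by norm_num) hp64'
  have h3 : 1 / (p : ℝ) ^ 2 ≤ 1 / p := by
    refine one_div_le_one_div_of_le hp0 ?_
    nlinarith
  have h4 : (0 : ℝ) ≤ 1 / p ^ 2 := by positivity
  refine ⟨by rw [h1]; linarith, by rw [h1]; linarith, ?_⟩
  rw [dn]
  refine div_nonneg ?_ (by positivity)
  nlinarith

/-- the degree of the polynomial `F (X, 1)` -/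
theorem natDegree_deh_le {d : ℕ} {F : MvPolynomial (Fin 2) (ZMod p)} (hF : F.IsHomogeneous d) :
    (deh F).natDegree ≤ d := by
  rw [deh, MvPolynomial.aeval_def, MvPolynomial.eval₂_eq']
  refine natDegree_sum_le_of_forall_le _ _ fun s hs => ?_
  have h1 : s.degree = d := by
    have h2 := hF (MvPolynomial.mem_support_iff.1 hs)
    rwa [Finsupp.degree_eq_weight_one]
  rw [Finsupp.degree_eq_sum, Fin.sum_univ_two] at h1
  rw [Fin.prod_univ_two]
  simp only [Matrix.cons_val_zero, Matrix.cons_val_one, one_pow, mul_one]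
  refine (natDegree_C_mul_X_pow_le _ _).trans (by omega)

theorem natDegree_wr_le {d : ℕ} (c : Idx 2 d → ZMod p) :
    (wr (deh (form c 0)) (deh (form c 1))).natDegree ≤ 2 * d := by
  have h1 := natDegree_deh_le (form_isHomogeneous c 0)
  have h2 := natDegree_deh_le (form_isHomogeneous c 1)
  rw [wr]
  refine (natDegree_sub_le _ _).trans (max_le ?_ ?_)
  · refine natDegree_mul_le.trans ?_
    have := natDegree_derivative_le (deh (form c 0))
    omega
  · refine natDegree_mul_le.trans ?_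
    have := natDegree_derivative_le (deh (form c 1))
    omega

theorem cnt_one {S : Finset (ZMod p)[X]} (hS : S ⊆ irr p 1) {d : ℕ} (hd : 2 * S.card ≤ d + 1) :
    (cnt (E₁ d) S : ℝ) = (p : ℝ) ^ Fintype.card (Idx 2 d) * dn p ^ S.card := by
  have hp0 : (0 : ℝ) < p := by exact_mod_cast hp.out.pos
  have h1 := cnt_E₁ le_rfl hS (d := d) (by rwa [one_mul])
  have h2 : (∏ P ∈ S, P).natDegree = S.card := by
    rw [prod_deg le_rfl hS, Finset.sum_congr rfl fun P hP => irr_one_deg (hS hP)]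
    simp
  rw [nz_prod S fun P hP => ⟨((mem_irr le_rfl).1 (hS hP)).2.1, ((mem_irr le_rfl).1 (hS hP)).1⟩,
    h2] at h1
  have h3 : ∀ P ∈ S, (nz P : ℝ) = (p : ℝ) ^ 3 + p ^ 2 - p := by
    intro P hP
    have h4 := nz_irr ((mem_irr le_rfl).1 (hS hP)).2.1 ((mem_irr le_rfl).1 (hS hP)).1
    rw [irr_one_deg (hS hP), pow_one] at h4
    have h5 : (nz P : ℝ) + p = (p : ℝ) ^ 3 + (p : ℝ) ^ 2 := by exact_mod_cast h4
    linarith
  have h4 : (cnt (E₁ d) S : ℝ) * ((p : ℝ) ^ S.card) ^ 4 =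
      (p : ℝ) ^ Fintype.card (Idx 2 d) * ((p : ℝ) ^ 3 + p ^ 2 - p) ^ S.card := by
    have h5 : ∏ P ∈ S, (nz P : ℝ) = ((p : ℝ) ^ 3 + p ^ 2 - p) ^ S.card := by
      rw [Finset.prod_congr rfl h3, Finset.prod_const]
    rw [← h5]
    exact_mod_cast h1
  have h5 : dn p = ((p : ℝ) ^ 3 + p ^ 2 - p) / p ^ 4 := by
    rw [dn]
    field_simp
  rw [h5, div_pow, mul_div_assoc', eq_div_iff (by positivity), ← h4]
  ring

theorem sum_one {j : ℕ} {d : ℕ} (hd : 2 * j ≤ d + 1) :
    ∑ S ∈ Finset.powersetCard j (irr p 1), (cnt (E₁ d) S : ℝ) =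
      (p : ℝ) ^ Fintype.card (Idx 2 d) * ((p.choose j : ℝ) * dn p ^ j) := by
  rw [Finset.sum_congr rfl fun S hS => by
    rw [cnt_one (Finset.mem_powersetCard.1 hS).1 (by rwa [(Finset.mem_powersetCard.1 hS).2]),
      (Finset.mem_powersetCard.1 hS).2]]
  rw [Finset.sum_const, Finset.card_powersetCard, card_irr_one, nsmul_eq_mul]
  ring

/-- degree at least five -/
theorem none_five {d : ℕ} (hd : 5 ≤ d) (hp64 : 64 ≤ p) :
    (p : ℝ) ^ Fintype.card (Idx 2 d) * (1 / 8) ≤ none (E₁ (p := p) d) (irr p 1) := by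
  have h1 := bonf_three (E₁ (p := p) d) (irr p 1)
  rw [sum_one (by omega), sum_one (by omega), sum_one (by omega), Fintype.card_fun, ZMod.card,
    Nat.choose_one_right, pow_one, Nat.cast_pow] at h1
  refine le_trans ?_ h1
  have hΩ : (0 : ℝ) < (p : ℝ) ^ Fintype.card (Idx 2 d) := by
    have : (0 : ℝ) < p := by exact_mod_cast hp.out.pos
    positivity
  have h2 : (1 / 8 : ℝ) ≤ 1 - p * dn p + (p.choose 2 : ℝ) * dn p ^ 2 -
      (p.choose 3 : ℝ) * dn p ^ 3 := by
    obtain ⟨hx1, hx2, hx3⟩ := dn_bd (p := p) hp64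
    have h3 : (p.choose 3 : ℝ) * dn p ^ 3 ≤ (p * dn p) ^ 3 / 6 := by
      have h4 : (p.choose 3 : ℝ) ≤ (p : ℝ) ^ 3 / 6 := by
        have h5 := Nat.choose_le_pow_div (α := ℝ) 3 p
        norm_num [Nat.factorial] at h5
        exact h5
      have h5 : 0 ≤ dn p ^ 3 := pow_nonneg hx3 3
      calc _ ≤ (p : ℝ) ^ 3 / 6 * dn p ^ 3 := mul_le_mul_of_nonneg_right h4 h5
        _ = _ := by ring
    have h4 : 63 / 128 ≤ (p.choose 2 : ℝ) * dn p ^ 2 := by
      rw [Nat.cast_choose_two]
      have hp64' : (64 : ℝ) ≤ p := by exact_mod_cast hp64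
      have h6 : (p : ℝ) * (p - 1) / 2 * dn p ^ 2 = (p * dn p) ^ 2 * (1 - 1 / p) / 2 := by
        have hp0 : (p : ℝ) ≠ 0 := by positivity
        field_simp
      rw [h6]
      have h7 : 1 / (p : ℝ) ≤ 1 / 64 := one_div_le_one_div_of_le (by norm_num) hp64'
      have h8 : 1 ≤ (p * dn p) ^ 2 := one_le_pow₀ hx1
      nlinarith
    have h5 : (p * dn p) ^ 3 ≤ (65 / 64) ^ 3 := pow_le_pow_left₀ (by linarith) hx2 3
    norm_num at h5
    linarith
  have h3 := mul_le_mul_of_nonneg_left h2 hΩ.le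
  linarith

/-- degrees three and four -/
theorem none_three {d : ℕ} (hd : 3 ≤ d) (hd4 : d ≤ 4) (hp64 : 128 ≤ p) :
    (p : ℝ) ^ Fintype.card (Idx 2 d) * (3 / 32) ≤ none (E₁ (p := p) d) (irr p 1) := by
  have h1 := bonf_two (E₁ (p := p) d) (irr p 1)
    (fun c => wr (deh (form c 0)) (deh (form c 1)) = 0) (fun c hc => by
      classical
      set S := (irr p 1).filter fun P => E₁ d P c with hS
      have h1 : Nat.card {x : (ZMod p)[X] // x ∈ irr p 1 ∧ E₁ d x c} = S.card := by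
        rw [hS, ← Nat.card_eq_finsetCard]
        refine Nat.card_congr (Equiv.subtypeEquivRight fun P => ?_)
        rw [Finset.mem_filter]
      rw [h1]
      have h2 : ∏ P ∈ S, P ∣ wr (deh (form c 0)) (deh (form c 1)) :=
        (prod_dvd_iff le_rfl (Finset.filter_subset _ _) _).1 fun P hP => (Finset.mem_filter.1 hP).2
      have h3 := natDegree_le_of_dvd h2 hc
      rw [prod_deg le_rfl (Finset.filter_subset _ _),
        Finset.sum_congr rfl fun P hP => irr_one_deg (Finset.filter_subset _ _ hP)] at h3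
      rw [Finset.sum_const, smul_eq_mul, mul_one] at h3
      have h4 := natDegree_wr_le c
      rw [← hS] at h3
      omega)
  rw [sum_one (by omega), sum_one (by omega), Fintype.card_fun, ZMod.card,
    Nat.choose_one_right, pow_one, Nat.cast_pow, card_irr_one] at h1
  have h2 := wr_zero_count (p := p) (d := d) (by omega)
  have hp0 : (0 : ℝ) < p := by exact_mod_cast hp.out.pos
  have h3 : (p : ℝ) ^ 2 * (Nat.card {c : Idx 2 d → ZMod p //
      wr (deh (form c 0)) (deh (form c 1)) = 0} : ℝ) ≤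
      (p : ℝ) ^ Fintype.card (Idx 2 d) * (2 / p) := by
    have h4 : p ^ 2 * Nat.card {c : Idx 2 d → ZMod p //
        wr (deh (form c 0)) (deh (form c 1)) = 0} * p ≤ p ^ Fintype.card (Idx 2 d) * 2 := by
      rw [card_idx]
      calc _ ≤ p ^ 2 * (p ^ (d + 1) * (p + 1)) * p :=
            Nat.mul_le_mul_right _ (Nat.mul_le_mul_left _ h2)
        _ = p ^ (d + 4) * (p + 1) := by ring
        _ ≤ p ^ (2 * d + 1) * (p * 2) := by
            refine Nat.mul_le_mul (Nat.pow_le_pow_right hp.out.pos (by omega)) ?_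
            have := hp.out.one_lt
            omega
        _ = _ := by ring
    rw [mul_div_assoc', le_div_iff₀ hp0]
    exact_mod_cast h4
  have h4 : (4 * (3 / 32) + 2 / p : ℝ) ≤ 4 - 4 * (p * dn p) + (p.choose 2 : ℝ) * dn p ^ 2 := by
    obtain ⟨hx1, -, hx3⟩ := dn_bd (p := p) (by omega)
    have hp64' : (128 : ℝ) ≤ p := by exact_mod_cast hp64
    have hx2 : p * dn p ≤ 1 + 1 / p := by
      rw [dn]
      have : (p : ℝ) * (((p : ℝ) ^ 2 + p - 1) / p ^ 3) = 1 + 1 / p - 1 / p ^ 2 := by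
        field_simp
      rw [this]
      have : (0 : ℝ) ≤ 1 / p ^ 2 := by positivity
      linarith
    rw [Nat.cast_choose_two]
    have h6 : (p : ℝ) * (p - 1) / 2 * dn p ^ 2 = (p * dn p) ^ 2 * (1 - 1 / p) / 2 := by
      field_simp
    rw [h6]
    have h7 : 1 / (p : ℝ) ≤ 1 / 128 := one_div_le_one_div_of_le (by norm_num) hp64'
    have h8 : 1 ≤ (p * dn p) ^ 2 := one_le_pow₀ hx1
    have h9 : 2 / (p : ℝ) = 2 * (1 / p) := by ring
    rw [h9]
    have h10 : 0 ≤ 1 / (p : ℝ) := by positivity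
    nlinarith
  have hΩ : (0 : ℝ) < (p : ℝ) ^ Fintype.card (Idx 2 d) := by positivity
  have h5 := mul_le_mul_of_nonneg_left h4 hΩ.le
  linarith

/-- **The density for rational points.** -/
theorem one (hp128 : 128 ≤ p) {d : ℕ} (hd : 2 ≤ d) :
    p ^ Fintype.card (Idx 2 d) ≤ 16 * Nat.card {c : Idx 2 d → ZMod p //
      IsCoprime (wr (deh (form c 0)) (deh (form c 1))) (hh p 1) ∧ (mati c).det ≠ 0} := by
  classical
  rcases eq_or_lt_of_le hd with rfl | hd3
  · exact (two_count (by omega)).trans (Nat.mul_le_mul_right _ (by norm_num))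
  have h3 : (p : ℝ) ^ Fintype.card (Idx 2 d) * (3 / 32) ≤ none (E₁ (p := p) d) (irr p 1) := by
    by_cases h5 : 5 ≤ d
    · refine le_trans ?_ (none_five h5 (by omega))
      have : (0 : ℝ) ≤ (p : ℝ) ^ Fintype.card (Idx 2 d) := by positivity
      linarith
    · exact none_three hd3 (by omega) hp128
  rw [none_E₁ le_rfl] at h3
  set Ω₁ : ℝ := (p : ℝ) ^ Fintype.card (Idx 2 d) with hΩ₁
  have h4 := inf_card (p := p) (d := d) (by omega)
  have h5 : (Nat.card {c : Idx 2 d → ZMod p // (mati c).det = 0} : ℝ) * p ≤ Ω₁ * 2 := by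
    rw [hΩ₁]
    exact_mod_cast h4
  have h6 : (Nat.card {c : Idx 2 d → ZMod p // (mati c).det = 0} : ℝ) ≤ Ω₁ * (1 / 64) := by
    have h7 : (128 : ℝ) ≤ p := by exact_mod_cast hp128
    have h8 : (0 : ℝ) ≤ Nat.card {c : Idx 2 d → ZMod p // (mati c).det = 0} := Nat.cast_nonneg _
    nlinarith [mul_le_mul_of_nonneg_left h7 h8]
  have h7 : Nat.card {c : Idx 2 d → ZMod p //
        IsCoprime (wr (deh (form c 0)) (deh (form c 1))) (hh p 1)} ≤
      Nat.card {c : Idx 2 d → ZMod p //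
        IsCoprime (wr (deh (form c 0)) (deh (form c 1))) (hh p 1) ∧ (mati c).det ≠ 0} +
      Nat.card {c : Idx 2 d → ZMod p // (mati c).det = 0} := by
    simp only [Nat.card_eq_fintype_card, Fintype.card_subtype]
    refine (Finset.card_le_card ?_).trans (Finset.card_union_le _ _)
    intro c hc
    rw [Finset.mem_union, Finset.mem_filter, Finset.mem_filter]
    rw [Finset.mem_filter] at hc
    by_cases h : (mati c).det = 0
    · exact Or.inr ⟨Finset.mem_univ _, h⟩
    · exact Or.inl ⟨Finset.mem_univ _, hc.2, h⟩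
  have h8 : (Nat.card {c : Idx 2 d → ZMod p //
        IsCoprime (wr (deh (form c 0)) (deh (form c 1))) (hh p 1)} : ℝ) ≤
      (Nat.card {c : Idx 2 d → ZMod p //
        IsCoprime (wr (deh (form c 0)) (deh (form c 1))) (hh p 1) ∧ (mati c).det ≠ 0} : ℝ) +
      (Nat.card {c : Idx 2 d → ZMod p // (mati c).det = 0} : ℝ) := by exact_mod_cast h7
  have h9 : Ω₁ ≤ 16 * (Nat.card {c : Idx 2 d → ZMod p //
        IsCoprime (wr (deh (form c 0)) (deh (form c 1))) (hh p 1) ∧ (mati c).det ≠ 0} : ℝ) := by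
    have : (0 : ℝ) ≤ Ω₁ := by positivity
    linarith
  rw [hΩ₁] at h9
  exact_mod_cast h9

end Pool.Agent.Helper87.LY
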