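import Mathlib
import Pool.Agent.Helper87.LY.One
import Pool.Agent.Helper87.LW2.Dens

/-!
# LY: the density of the good residue classes of tuples, lines in fixed degree
-/

set_option autoImplicit false

namespace Pool.Agent.Helper87.LY

open MvPolynomial Pool.Agent.Helper87.LD Pool.Agent.Helper87.LW Pool.Agent.Helper87.LW1
open Pool.Agent.Helper87.LW2

noncomputable section

theorem goodD_of {D : ℕ} {p : ℕ} [Fact p.Prime] {d : ℕ} {c : Idx 2 d → ZMod p}
    (h : IsCoprime (wr (deh (form c 0)) (deh (form c 1))) (hh p D.factorial) ∧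
      (mati c).det ≠ 0) : GoodD D (form c) := by
  obtain ⟨h1, h2⟩ := h
  rw [det_mati] at h2
  exact goodD_of_wr (fun i => form_isHomogeneous c i) h1 h2

/-- the degree from which on the density for the line is bounded below -/
theorem line_fixed : ∃ δ : ℕ → ℕ, δ 1 = 2 ∧ ∀ D : ℕ, ∃ κ p₀ : ℕ, 0 < κ ∧
    ∀ (p : ℕ) [Fact p.Prime], p₀ ≤ p → ∀ d, δ D ≤ d → p ^ Fintype.card (Idx 2 d) ≤
      κ * Nat.card {c : Idx 2 d → ZMod p // GoodD D (form c)} := by
  classical
  choose d₁ p₀ h using fun D : ℕ => gen D.factorial (Nat.factorial_pos D)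
  refine ⟨fun D => if D = 1 then 2 else d₁ D, if_pos rfl, fun D => ?_⟩
  have hmono : ∀ (p : ℕ) [Fact p.Prime] (d : ℕ), Nat.card {c : Idx 2 d → ZMod p //
      IsCoprime (wr (deh (form c 0)) (deh (form c 1))) (hh p D.factorial) ∧
        (mati c).det ≠ 0} ≤ Nat.card {c : Idx 2 d → ZMod p // GoodD D (form c)} := by
    intro p _ d
    rw [Nat.card_eq_fintype_card, Nat.card_eq_fintype_card]
    exact Fintype.card_subtype_mono _ _ fun c hc => goodD_of hc
  by_cases hD : D = 1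
  · subst hD
    refine ⟨16, 128, by norm_num, fun p _ hp d hd => ?_⟩
    have hd' : 2 ≤ d := by simpa using hd
    exact (one hp hd').trans (Nat.mul_le_mul_left _ (hmono p d))
  · refine ⟨4 * 16 ^ D.factorial, p₀ D, by positivity, fun p _ hp d hd => ?_⟩
    have hd' : d₁ D ≤ d := by simpa [hD] using hd
    exact (h D p hp d hd').trans (Nat.mul_le_mul_left _ (hmono p d))

/-- the density of the good classes of tuples is at least `1 / (κ p)`, if the degrees of the maps of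
lines are at least `dl` and the others are large -/
def DensOKT {s : ℕ} (nn : Fin s → ℕ) (D dl : ℕ) : Prop :=
  ∃ κ p₀ : ℕ, 0 < κ ∧ ∀ (p : ℕ) [Fact p.Prime], p₀ ≤ p → ∃ d₀ : ℕ, ∀ d : Fin s → ℕ,
    (∀ a, (if nn a = 2 then dl else d₀) ≤ d a) →
    ∏ a, p ^ Fintype.card (Idx (nn a) (d a)) ≤
      κ * p * ∏ a, Nat.card {c : Idx (nn a) (d a) → ZMod p // GoodD D (form c)}

/-- the density for tuples -/
theorem densOKT : ∃ δ : ℕ → ℕ, δ 1 = 2 ∧ ∀ {s : ℕ} (nn : Fin s → ℕ) (D : ℕ),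
    (∀ a, nn a = 2 ∨ nn a = 3 ∨ (nn a = 4 ∧ D = 1)) →
    (∀ a b, nn a = 4 → nn b = 4 → a = b) → DensOKT nn D (δ D) := by
  classical
  obtain ⟨δ, hδ, hline⟩ := line_fixed
  refine ⟨δ, hδ, fun {s} nn D hnn h4 => ?_⟩
  have hone : ∀ a, ∃ κ p₀ : ℕ, 0 < κ ∧ ∀ (p : ℕ) [Fact p.Prime], p₀ ≤ p → ∃ d₀ : ℕ, ∀ d,
      (if nn a = 2 then δ D else d₀) ≤ d → p ^ Fintype.card (Idx (nn a) d) ≤
        κ * (if nn a = 4 then p else 1) *
          Nat.card {c : Idx (nn a) d → ZMod p // GoodD D (form c)} := by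
    intro a
    by_cases ha : nn a = 2
    · obtain ⟨κ, p₀, hκ, h⟩ := hline D
      refine ⟨κ, p₀, hκ, fun p _ hp => ⟨0, fun d hd => ?_⟩⟩
      rw [if_pos ha] at hd
      rw [ha, if_neg (by norm_num), mul_one]
      exact h p hp d hd
    · obtain ⟨κ, p₀, hκ, h⟩ := dens_one (nn a) D (hnn a)
      refine ⟨κ, p₀, hκ, fun p _ hp => ?_⟩
      obtain ⟨d₀, hd₀⟩ := h p hp
      refine ⟨d₀, fun d hd => ?_⟩
      rw [if_neg ha] at hd
      exact hd₀ d hd
  choose κ p₀ hκ h using hone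
  refine ⟨∏ a, κ a, ∑ a, p₀ a, Finset.prod_pos fun a _ => hκ a, fun p hp hpp => ?_⟩
  have hpa : ∀ a, p₀ a ≤ p := fun a =>
    (Finset.single_le_sum (fun _ _ => Nat.zero_le _) (Finset.mem_univ a)).trans hpp
  choose d₀ hd₀ using fun a => h a p (hpa a)
  refine ⟨∑ a, d₀ a, fun d hd => ?_⟩
  have hda : ∀ a, (if nn a = 2 then δ D else d₀ a) ≤ d a := by
    intro a
    have h1 := hd a
    by_cases ha : nn a = 2
    · rw [if_pos ha] at h1 ⊢
      exact h1
    · rw [if_neg ha] at h1 ⊢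
      exact (Finset.single_le_sum (fun _ _ => Nat.zero_le _) (Finset.mem_univ a)).trans h1
  refine (Finset.prod_le_prod' fun a _ => hd₀ a (d a) (hda a)).trans ?_
  rw [Finset.prod_mul_distrib, Finset.prod_mul_distrib]
  refine Nat.mul_le_mul_right _ (Nat.mul_le_mul_left _ ?_)
  by_cases hex : ∃ a, nn a = 4
  · obtain ⟨a, ha⟩ := hex
    rw [Finset.prod_eq_single a]
    · rw [if_pos ha]
    · intro b _ hb
      rw [if_neg fun hb4 => hb (h4 b a hb4 ha)]
    · intro h5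
      exact absurd (Finset.mem_univ a) h5
  · rw [Finset.prod_eq_one]
    · exact hp.out.one_lt.le
    · intro b _
      rw [if_neg fun hb4 => hex ⟨b, hb4⟩]

end

end Pool.Agent.Helper87.LY
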